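import Pool.Agent.Mg.F4f0bc7.G2b7e7f

section

namespace Pool.Agent.MP_4f0bc7_gt

open Filter Topology Matrix Metric

variable {n : ℕ}

lemma map_lp (φ : Matrix (Fin n) (Fin n) ℂ ≃ₐ[ℂ] Matrix (Fin n) (Fin n) ℂ)
    (Y : Matrix (Fin n) (Fin n) ℂ) (L : List ℂ) : φ (lp Y L) = lp (φ Y) L := by
  induction L with
  | nil => simp
  | cons l L ih => simp [ih]

section basic
variable (hR : RedStmt) (hF : FroStmt) {H : Matrix (Fin n) (Fin n) ℂ} (hH : IsPosHerm H)
include hR hF hH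

lemma nsq_nonneg (X : Matrix (Fin n) (Fin n) ℂ) : 0 ≤ nsq H X := by
  obtain ⟨-, φ, hφ⟩ := hR n H hH
  rw [(hφ X).2]
  exact (sq_nonneg _).trans ((hF n).1 _).1

open scoped Matrix.Norms.L2Operator in
lemma eq_zero_of_nsq {X : Matrix (Fin n) (Fin n) ℂ} (h : nsq H X ≤ 0) : X = 0 := by
  obtain ⟨-, φ, hφ⟩ := hR n H hH
  rw [(hφ X).2] at h
  have h1 : ‖φ X‖ ^ 2 ≤ 0 := ((hF n).1 _).1.trans h
  have h2 : ‖φ X‖ = 0 := by
    have := pow_eq_zero_iff (a := ‖φ X‖) two_ne_zero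
    exact this.1 (le_antisymm h1 (sq_nonneg _))
  exact φ.injective (by rw [norm_eq_zero.1 h2, map_zero])

lemma nsq_smul (a : ℂ) (X : Matrix (Fin n) (Fin n) ℂ) : nsq H (a • X) = ‖a‖ ^ 2 * nsq H X := by
  obtain ⟨-, φ, hφ⟩ := hR n H hH
  rw [(hφ _).2, (hφ _).2, map_smul, (hF n).2.1]

lemma nsq_mul_le (X Y : Matrix (Fin n) (Fin n) ℂ) : nsq H (X * Y) ≤ nsq H X * nsq H Y := by
  obtain ⟨-, φ, hφ⟩ := hR n H hH
  rw [(hφ _).2, (hφ _).2, (hφ _).2, map_mul]
  exact (hF n).2.2 _ _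

lemma nsq_pow_le (X : Matrix (Fin n) (Fin n) ℂ) (a : ℕ) :
    nsq H (X ^ (a + 1)) ≤ nsq H X ^ (a + 1) := by
  induction a with
  | zero => simp
  | succ a ih =>
    rw [pow_succ X, pow_succ (nsq H X)]
    exact (nsq_mul_le hR hF hH _ _).trans
      (mul_le_mul_of_nonneg_right ih (nsq_nonneg hR hF hH X))

end basic

lemma i2H (hR : RedStmt) (h2 : I2Stmt) (n len : ℕ) : ∃ C : ℝ, 0 < C ∧
    ∀ (H Y : Matrix (Fin n) (Fin n) ℂ) (L : List ℂ) (K : ℝ), IsPosHerm H → 0 ≤ K →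
      L.length = len → lp Y L = 0 → (∀ l ∈ L, ‖l‖ ≤ K) → C * K ^ 2 < nsq H Y →
      nsq H Y ^ 2 ≤ C * nsq H (adj H Y * Y - Y * adj H Y) := by
  obtain ⟨C, hC, h⟩ := h2 n len
  refine ⟨C, hC, fun H Y L K hH hK hl h0 hb hlt => ?_⟩
  obtain ⟨-, φ, hφ⟩ := hR n H hH
  rw [(hφ _).2] at hlt
  rw [(hφ _).2, (hφ _).2, map_sub, map_mul, map_mul, (hφ _).1]
  exact h (φ Y) L K hK hl (by rw [← map_lp, h0, map_zero]) hb hlt

lemma i3H (hR : RedStmt) (h3 : I3Stmt) (n d M : ℕ) : ∃ C : ℝ, 0 < C ∧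
    ∀ (H Y : Matrix (Fin n) (Fin n) ℂ) (L : List ℂ) (K : ℝ), IsPosHerm H → 0 ≤ K →
      L.length = d + 1 → (∀ l ∈ L, ‖l‖ ≤ K) → nsq H Y ≤ K ^ 2 → lp Y L ^ M = 0 →
      nsq H (lp Y L) ^ 2 ≤ C * K ^ (2 * d) * nsq H (adj H Y * lp Y L - lp Y L * adj H Y) := by
  obtain ⟨C, hC, h⟩ := h3 n d M
  refine ⟨C, hC, fun H Y L K hH hK hl hb hY h0 => ?_⟩
  obtain ⟨-, φ, hφ⟩ := hR n H hH
  rw [(hφ _).2] at hY
  rw [(hφ _).2, (hφ _).2, map_sub, map_mul, map_mul, (hφ _).1, map_lp]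
  exact h (φ Y) L K hK hl hb hY (by rw [← map_lp, ← map_pow, h0, map_zero])

/-- the local estimate for a nilpotent polynomial in the Higgs field -/
theorem le_est (hR : RedStmt) (h2 : I2Stmt) (h3 : I3Stmt) (hB : BochStmt) (hK : KOStmt)
    (n len d M : ℕ) : ∃ C : ℝ, 0 < C ∧
    ∀ (U : Set ℂ) (A H N : ℂ → Matrix (Fin n) (Fin n) ℂ) (z₀ : ℂ) (r K : ℝ), IsOpen U →
      IsHarmonicMetric U A H → (∀ a b, DifferentiableOn ℂ (fun w => A w a b) U) →
      (∀ a b, DifferentiableOn ℂ (fun w => N w a b) U) → 0 < r → closedBall z₀ r ⊆ U →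
      1 ≤ K * r →
      (∀ w ∈ closedBall z₀ r, ∃ L : List ℂ, L.length = len ∧ lp (A w) L = 0 ∧ ∀ l ∈ L, ‖l‖ ≤ K) →
      (∀ w ∈ closedBall z₀ r, ∃ L : List ℂ, L.length = d + 1 ∧ N w = lp (A w) L ∧
        N w ^ M = 0 ∧ ∀ l ∈ L, ‖l‖ ≤ K) →
      nsq (H z₀) (N z₀) ≤ C * K ^ (2 * d) / r ^ 2 := by
  obtain ⟨C₂, hC₂, H2⟩ := i2H hR h2 n len
  obtain ⟨C₃, hC₃, H3⟩ := i3H hR h3 n d M
  set t : ℝ := 1 + 25 * C₂ with ht
  have ht1 : 1 ≤ t := by linarith
  refine ⟨24 * C₃ * t ^ (2 * d), by positivity, ?_⟩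
  intro U A H N z₀ r K hU hH hA hN hr hsub hKr hLA hLN
  have hK0 : 0 < K := by
    by_contra h
    push Not at h
    nlinarith
  have hP := hH.2.1
  have step1 : ∀ w ∈ closedBall z₀ (r / 2), nsq (H w) (A w) ≤ (t * K) ^ 2 := by
    intro w hw
    have hs : closedBall w (r / 2) ⊆ closedBall z₀ r :=
      closedBall_subset_closedBall' (by have := mem_closedBall.1 hw; linarith)
    have := hK (fun v => nsq (H v) (A v) - C₂ * K ^ 2) w (r / 2) (1 / C₂) (by positivity)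
      (by positivity)
      (fun v hv => (hB n U A H A hU hH hA v (hsub (hs hv))).1.sub contDiffAt_const)
      (fun v hv hpos => by
        have hv' := hs (ball_subset_closedBall hv)
        obtain ⟨hc, hb⟩ := hB n U A H A hU hH hA v (hsub hv')
        obtain ⟨L, hl, h0, hb'⟩ := hLA v hv'
        rw [LL_sub_const hc]
        have h4 := H2 (H v) (A v) L K (hP v (hsub hv')) hK0.le hl h0 hb' (by linarith)
        have h5 := hb rfl
        have h6 : (nsq (H v) (A v) - C₂ * K ^ 2) ^ 2 ≤ nsq (H v) (A v) ^ 2 := by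
          have : 0 ≤ C₂ * K ^ 2 := by positivity
          exact pow_le_pow_left₀ hpos.le (by linarith) 2
        rw [one_div, inv_mul_le_iff₀ hC₂]
        exact h6.trans (h4.trans (mul_le_mul_of_nonneg_left h5 hC₂.le)))
    have h7 : 6 / (1 / C₂ * (r / 2) ^ 2) ≤ 24 * C₂ * K ^ 2 := by
      rw [div_le_iff₀ (by positivity)]
      have : 24 * C₂ * K ^ 2 * (1 / C₂ * (r / 2) ^ 2) = 6 * (K * r) ^ 2 := by
        field_simp; ring
      rw [this]
      nlinarith
    have h8 : 25 * C₂ * K ^ 2 ≤ (t * K) ^ 2 := by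
      rw [mul_pow]
      apply mul_le_mul_of_nonneg_right _ (by positivity)
      nlinarith
    linarith
  have hs : closedBall z₀ (r / 2) ⊆ closedBall z₀ r := closedBall_subset_closedBall (by linarith)
  have := hK (fun v => nsq (H v) (N v)) z₀ (r / 2) (1 / (C₃ * (t * K) ^ (2 * d))) (by positivity)
    (by positivity) (fun v hv => (hB n U A H N hU hH hN v (hsub (hs hv))).1)
    (fun v hv _ => by
      have hv' := hs (ball_subset_closedBall hv)
      obtain ⟨-, hb⟩ := hB n U A H N hU hH hN v (hsub hv')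
      obtain ⟨L, hl, he, h0, hb'⟩ := hLN v hv'
      have hc : N v * A v = A v * N v := by
        rw [he]; exact (commute_lp _ _ (Commute.refl _) L).symm
      have h5 := hb hc
      have h4 := H3 (H v) (A v) L (t * K) (hP v (hsub hv')) (by positivity) hl
        (fun l hl => (hb' l hl).trans (le_mul_of_one_le_left hK0.le ht1))
        (step1 v (ball_subset_closedBall hv)) (by rw [← he]; exact h0)
      rw [← he] at h4
      rw [one_div, inv_mul_le_iff₀ (by positivity)]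
      exact h4.trans (mul_le_mul_of_nonneg_left h5 (by positivity)))
  refine this.trans (le_of_eq ?_)
  rw [mul_pow]
  field_simp
  ring

/-- a bounded nilpotent polynomial in the Higgs field vanishes -/
theorem at_zero (hR : RedStmt) (hF : FroStmt) (h3 : I3Stmt) (hB : BochStmt) (hL : LiouStmt)
    {U : Set ℂ} {A H N : ℂ → Matrix (Fin n) (Fin n) ℂ} (hU : IsOpen U)
    (h0 : ∀ z : ℂ, z ≠ 0 → z ∈ U) (hH : IsHarmonicMetric U A H)
    (hN : ∀ a b, DifferentiableOn ℂ (fun w => N w a b) U)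
    (hNL : ∀ z : ℂ, z ≠ 0 → ∃ (a : ℂ) (L : List ℂ) (M : ℕ), N z = a • lp (A z) L ∧
      lp (A z) L ^ M = 0)
    (B : ℝ) (hb : ∀ z : ℂ, z ≠ 0 → nsq (H z) (N z) ≤ B) : ∀ z : ℂ, z ≠ 0 → N z = 0 := by
  have hP := hH.2.1
  have := hL (fun z => nsq (H z) (N z)) B (fun z hz => (hB n U A H N hU hH hN z (h0 z hz)).1) hb
    (fun z hz hpos => by
      obtain ⟨a, L, M, he, hM⟩ := hNL z hz
      have hz' := hP z (h0 z hz)
      have hc : N z * A z = A z * N z := by
        rw [he, Matrix.smul_mul, Matrix.mul_smul, (commute_lp _ _ (Commute.refl _) L).eq]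
      refine lt_of_lt_of_le ?_ ((hB n U A H N hU hH hN z (h0 z hz)).2 hc)
      have hpos' : 0 < nsq (H z) (N z) := hpos
      rw [he, nsq_smul hR hF hz'] at hpos'
      have ha : 0 < ‖a‖ ^ 2 := pos_of_mul_pos_left hpos' (nsq_nonneg hR hF hz' _)
      have hp : 0 < nsq (H z) (lp (A z) L) := (mul_pos_iff_of_pos_left ha).1 hpos'
      rw [he, Matrix.smul_mul, Matrix.mul_smul, ← smul_sub, nsq_smul hR hF hz']
      refine mul_pos ha ?_
      cases L with
      | nil =>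
        exfalso
        rw [lp_nil, one_pow] at hM
        rw [lp_nil, hM] at hp
        simp [nsq] at hp
      | cons l L =>
        obtain ⟨C, hC, H3⟩ := i3H hR h3 n L.length M
        set K : ℝ := 1 + nsq (H z) (A z) + ((l :: L).map fun x => ‖x‖).sum with hK
        have hs : 0 ≤ ((l :: L).map fun x => ‖x‖).sum :=
          List.sum_nonneg (by
            intro x hx
            obtain ⟨y, -, rfl⟩ := List.mem_map.1 hx
            exact norm_nonneg _)
        have hA0 := nsq_nonneg hR hF hz' (A z)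
        have h4 := H3 (H z) (A z) (l :: L) K hz' (by positivity) rfl
          (fun x hx => by
            have : ‖x‖ ≤ ((l :: L).map fun x => ‖x‖).sum :=
              List.single_le_sum (by
                intro x hx
                obtain ⟨y, -, rfl⟩ := List.mem_map.1 hx
                exact norm_nonneg _) _ (List.mem_map.2 ⟨x, hx, rfl⟩)
            linarith)
          (by nlinarith) hM
        by_contra hneg
        push Not at hneg
        have h5 : C * K ^ (2 * L.length)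
            * nsq (H z) (adj (H z) (A z) * lp (A z) (l :: L) - lp (A z) (l :: L) * adj (H z) (A z))
            ≤ 0 := mul_nonpos_of_nonneg_of_nonpos (by positivity) hneg
        nlinarith)
  exact fun z hz => eq_zero_of_nsq hR hF (hP z (h0 z hz)) (this z hz)

end Pool.Agent.MP_4f0bc7_gt

end

section

namespace Pool.Agent.MP_4f0bc7_gt

open Filter Topology Matrix Metric Polynomial

variable {n : ℕ}

lemma hitchin_map {R S : Type} [CommRing R] [CommRing S] (φ : R →+* S) (n : ℕ) (q : ℕ → R) :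
    (hitchin n q).map φ = hitchin n fun j => φ (q j) := by
  ext a b
  simp only [hitchin, Matrix.map_apply, Matrix.of_apply]
  split_ifs <;> simp

lemma monic_list (p : ℂ[X]) (hp : p.Monic) : ∃ L : List ℂ, L.length = p.natDegree ∧
    p = (L.map fun l => X - C l).prod ∧ ∀ l ∈ L, p.IsRoot l := by
  refine ⟨p.roots.toList, ?_, ?_, ?_⟩
  · rw [Multiset.length_toList, IsAlgClosed.card_roots_eq_natDegree]
  · rw [Multiset.prod_map_toList]
    exact (IsAlgClosed.splits p).eq_prod_roots_of_monic hp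
  · intro l hl
    exact (mem_roots hp.ne_zero).1 (Multiset.mem_toList.1 hl)

lemma aeval_map_ev (θ : Matrix (Fin n) (Fin n) ℂ[X]) (w : ℂ) (S : ℂ[X][X]) :
    (aeval θ S).map (evalRingHom w) = aeval (θ.map (evalRingHom w)) (S.map (evalRingHom w)) := by
  induction S using Polynomial.induction_on' with
  | add p q hp hq =>
    rw [map_add, Polynomial.map_add, map_add, ← hp, ← hq]
    exact (evalRingHom w).mapMatrix.map_add _ _
  | monomial k a =>
    rw [Polynomial.map_monomial, aeval_monomial, aeval_monomial, Algebra.algebraMap_eq_smul_one,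
      Algebra.algebraMap_eq_smul_one, smul_mul_assoc, smul_mul_assoc, one_mul, one_mul]
    have h : (θ ^ k).map (evalRingHom w) = (θ.map (evalRingHom w)) ^ k :=
      (evalRingHom w).mapMatrix.map_pow θ k
    rw [← h]
    ext i j
    simp

lemma holo_map_ev (θ : Matrix (Fin n) (Fin n) ℂ[X]) (U : Set ℂ) (a b : Fin n) :
    DifferentiableOn ℂ (fun w => θ.map (evalRingHom w) a b) U :=
  (θ a b).differentiable.differentiableOn

lemma aeval_eq_zero_of_dvd {R : Type} [CommRing R] (θ : Matrix (Fin n) (Fin n) R) {S : R[X]}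
    (h : θ.charpoly ∣ S) : aeval θ S = 0 := by
  obtain ⟨T, rfl⟩ := h
  rw [map_mul, Matrix.aeval_self_charpoly, zero_mul]

/-- the degree criterion on the complex line -/
theorem crit (hR : RedStmt) (hF : FroStmt) (h2 : I2Stmt) (h3 : I3Stmt) (hB : BochStmt)
    (hK : KOStmt) (hL : LiouStmt) (hNe : HNeStmt) (hRt : RootStmt) (hPo : PolyStmt)
    (n : ℕ) (ρ : ℝ) (q : ℕ → ℂ[X]) (D G : ℂ[X][X]) (g : ℂ[X]) (a M : ℕ) (hρ : 0 ≤ ρ)
    (hq : ∀ j, 2 ≤ j → j ≤ n → ((q j).natDegree : ℝ) ≤ j * ρ)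
    (hD : D.Monic) (hDP : D ∣ (hitchin n q).charpoly) (hPD : (hitchin n q).charpoly ∣ D ^ M)
    (hG : G.Monic) (hGn : G.natDegree < n) (hg : g ≠ 0) (ha : 1 ≤ a)
    (hrel : (hitchin n q).charpoly ∣ D ^ a - C g * G)
    (hdeg : (a : ℝ) * (ρ * ((D.natDegree : ℝ) - 1) - 1) ≤ g.natDegree) :
    ¬ ∃ H, IsHarmonicMetric Set.univ (fun z => hitchin n fun j => (q j).eval z) H := by
  rintro ⟨H, hH⟩
  set θ := hitchin n q with hθ
  set A : ℂ → Matrix (Fin n) (Fin n) ℂ := fun z => θ.map (evalRingHom z) with hA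
  have hAe : ∀ z, A z = hitchin n fun j => (q j).eval z := fun z => hitchin_map _ _ _
  have hH' : IsHarmonicMetric Set.univ A H := by
    have : A = fun z => hitchin n fun j => (q j).eval z := funext hAe
    rw [this]; exact hH
  have hn : 0 < n := lt_of_le_of_lt (Nat.zero_le _) hGn
  obtain ⟨d, hd⟩ : ∃ d, D.natDegree = d + 1 := by
    refine Nat.exists_eq_succ_of_ne_zero fun h0 => ?_
    have h1 : D = 1 := hD.natDegree_eq_zero.1 h0
    rw [h1, one_pow] at hPD
    have := natDegree_eq_zero_of_isUnit (isUnit_of_dvd_one hPD)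
    rw [Matrix.charpoly_natDegree_eq_dim, Fintype.card_fin] at this
    omega
  obtain ⟨a', rfl⟩ : ∃ a', a = a' + 1 := ⟨a - 1, by omega⟩
  set N₁ : ℂ → Matrix (Fin n) (Fin n) ℂ := fun z => (aeval θ D).map (evalRingHom z) with hN₁
  set N₂ : ℂ → Matrix (Fin n) (Fin n) ℂ := fun z => (aeval θ G).map (evalRingHom z) with hN₂
  have hDM : aeval θ D ^ M = 0 := by rw [← map_pow]; exact aeval_eq_zero_of_dvd θ hPD
  have hrel' : g • aeval θ G = aeval θ D ^ (a' + 1) := by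
    have := aeval_eq_zero_of_dvd θ hrel
    rw [map_sub, map_mul, map_pow, aeval_C, Algebra.algebraMap_eq_smul_one, smul_mul_assoc,
      one_mul, sub_eq_zero] at this
    exact this.symm
  have hGM : aeval θ G ^ M = 0 := by
    have h1 : g ^ M • aeval θ G ^ M = 0 := by
      rw [← _root_.smul_pow, hrel', ← pow_mul, mul_comm, pow_mul, hDM, zero_pow (by omega)]
    ext1 i j
    have := congrFun (congrFun h1 i) j
    rw [Matrix.smul_apply, smul_eq_mul, Matrix.zero_apply] at this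
    exact (mul_eq_zero.1 this).resolve_left (pow_ne_zero _ hg)
  have hpow : ∀ (Y : Matrix (Fin n) (Fin n) ℂ[X]) (z : ℂ) (k : ℕ),
      (Y.map (evalRingHom z)) ^ k = (Y ^ k).map (evalRingHom z) := fun Y z k =>
    ((evalRingHom z).mapMatrix.map_pow Y k).symm
  have hzero : ∀ z : ℂ, (0 : Matrix (Fin n) (Fin n) ℂ[X]).map (evalRingHom z) = 0 := fun z =>
    (evalRingHom z).mapMatrix.map_zero
  have hlist : ∀ (S : ℂ[X][X]), S.Monic → ∀ z : ℂ, ∃ L : List ℂ, L.length = S.natDegree ∧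
      (aeval θ S).map (evalRingHom z) = lp (A z) L ∧
      ∀ l ∈ L, (S.map (evalRingHom z)).IsRoot l := by
    intro S hS z
    obtain ⟨L, h1, h2, h3⟩ := monic_list _ (hS.map (evalRingHom z))
    refine ⟨L, by rw [h1, hS.natDegree_map], ?_, h3⟩
    rw [aeval_map_ev, lp_eq_aeval, ← h2]
  -- growth of the coefficients
  obtain ⟨C₀, hC₀, hqb⟩ : ∃ C₀ : ℝ, 1 ≤ C₀ ∧ ∀ (w : ℂ) (T : ℝ), 1 ≤ T → ‖w‖ ≤ T →
      ∀ j, 2 ≤ j → j ≤ n → ‖(q j).eval w‖ ≤ (C₀ * T ^ ρ) ^ j := by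
    choose c hc hcb using fun j => hPo.1 (q j) _ le_rfl
    have hs : 0 ≤ ∑ j ∈ Finset.range (n + 1), c j := Finset.sum_nonneg fun j _ => (hc j).le
    refine ⟨1 + ∑ j ∈ Finset.range (n + 1), c j, by linarith, fun w T hT hw j hj hjn => ?_⟩
    have h1 : c j ≤ ∑ j ∈ Finset.range (n + 1), c j :=
      Finset.single_le_sum (fun j _ => (hc j).le) (Finset.mem_range.2 (by omega))
    have h2 : T ^ (q j).natDegree ≤ (T ^ ρ) ^ j := by
      rw [← Real.rpow_natCast, ← Real.rpow_mul_natCast (by linarith)]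
      exact Real.rpow_le_rpow_of_exponent_le hT (by rw [mul_comm]; exact hq j hj hjn)
    rw [mul_pow]
    refine (hcb j w T hT hw).trans (mul_le_mul ?_ h2 (by positivity) (by positivity))
    exact (h1.trans (by linarith)).trans (le_self_pow₀ (by linarith) (by omega))
  obtain ⟨C₁, hC₁, hLE⟩ := le_est hR h2 h3 hB hK n n d M
  have hn1 : (1 : ℝ) ≤ n := by exact_mod_cast hn
  have hN₁b : ∀ z : ℂ, 1 ≤ ‖z‖ →
      nsq (H z) (N₁ z) ≤ 4 * C₁ * (2 * n * C₀ * 2 ^ ρ) ^ (2 * d) * ‖z‖ ^ (2 * (ρ * d - 1)) := by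
    intro z hz
    have hz0 : 0 < ‖z‖ := by linarith
    have hT : 1 ≤ (2 * ‖z‖) ^ ρ := Real.one_le_rpow (by linarith) hρ
    have hK0 : 1 ≤ C₀ * (2 * ‖z‖) ^ ρ := one_le_mul_of_one_le_of_one_le hC₀ hT
    have hroot : ∀ w ∈ closedBall z (‖z‖ / 2), ∀ l,
        (θ.charpoly.map (evalRingHom w)).IsRoot l → ‖l‖ ≤ 2 * n * (C₀ * (2 * ‖z‖) ^ ρ) := by
      intro w hw l hl
      have hw' : ‖w‖ ≤ 2 * ‖z‖ := by
        have h1 := mem_closedBall.1 hw
        rw [dist_eq_norm] at h1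
        have h2 := norm_le_norm_add_norm_sub' w z
        linarith
      rw [← Matrix.charpoly_map] at hl
      have hl' : (hitchin n fun j => (q j).eval w).charpoly.IsRoot l := by rw [← hAe]; exact hl
      have := hRt n _ _ (by linarith) (hqb w _ (by linarith) hw') l hl'
      nlinarith
    have := hLE Set.univ A H N₁ z (‖z‖ / 2) (2 * n * (C₀ * (2 * ‖z‖) ^ ρ)) isOpen_univ hH'
      (holo_map_ev _ _) (holo_map_ev _ _) (by positivity) (Set.subset_univ _)
      (by nlinarith [mul_le_mul hn1 hK0 zero_le_one (by linarith : (0 : ℝ) ≤ n)])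
      (fun w hw => by
        obtain ⟨L, h1, h2, h3⟩ := hlist _ θ.charpoly_monic w
        refine ⟨L, by rw [h1, Matrix.charpoly_natDegree_eq_dim, Fintype.card_fin], ?_,
          fun l hl => hroot w hw l (h3 l hl)⟩
        rw [← h2, Matrix.aeval_self_charpoly, hzero])
      (fun w hw => by
        obtain ⟨L, h1, h2, h3⟩ := hlist _ hD w
        refine ⟨L, by rw [h1, hd], h2, by rw [hN₁, hpow, hDM, hzero], fun l hl => ?_⟩
        exact hroot w hw l ((h3 l hl).dvd (Polynomial.map_dvd _ hDP)))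
    refine this.trans (le_of_eq ?_)
    have e1 : ‖z‖ ^ (2 * (ρ * d - 1)) = (‖z‖ ^ ρ) ^ (2 * d) / ‖z‖ ^ 2 := by
      rw [← Real.rpow_mul_natCast hz0.le, ← Real.rpow_natCast ‖z‖ 2, ← Real.rpow_sub hz0]
      congr 1; push_cast; ring
    rw [e1, Real.mul_rpow (by norm_num) hz0.le]
    have e2 : 2 * (n : ℝ) * (C₀ * (2 ^ ρ * ‖z‖ ^ ρ)) = (2 * n * C₀ * 2 ^ ρ) * ‖z‖ ^ ρ := by ring
    rw [e2, mul_pow]
    field_simp
    ring
  set C₂ : ℝ := 4 * C₁ * (2 * n * C₀ * 2 ^ ρ) ^ (2 * d) with hC₂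
  have hC₂0 : 0 ≤ C₂ := by positivity
  obtain ⟨c, R, hc, hR1, hgb⟩ := hPo.2 g hg
  have hP := hH'.2.1
  have hfar : ∀ z : ℂ, R ≤ ‖z‖ → nsq (H z) (N₂ z) ≤ C₂ ^ (a' + 1) / c ^ 2 := by
    intro z hz
    have hz1 : 1 ≤ ‖z‖ := hR1.trans hz
    have hz0 : 0 < ‖z‖ := by linarith
    have hz' := hP z (Set.mem_univ z)
    have e1 : g.eval z • N₂ z = N₁ z ^ (a' + 1) := by
      rw [hN₁, hpow, ← hrel']
      ext i j
      simp [hN₂]
    have h1 : ‖g.eval z‖ ^ 2 * nsq (H z) (N₂ z) ≤ (C₂ * ‖z‖ ^ (2 * (ρ * d - 1))) ^ (a' + 1) := by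
      rw [← nsq_smul hR hF hz', e1]
      exact (nsq_pow_le hR hF hz' _ _).trans
        (pow_le_pow_left₀ (nsq_nonneg hR hF hz' _) (hN₁b z hz1) _)
    have h2 : (‖z‖ ^ (2 * (ρ * d - 1))) ^ (a' + 1) ≤ (‖z‖ ^ g.natDegree) ^ 2 := by
      rw [← Real.rpow_mul_natCast hz0.le, ← pow_mul, ← Real.rpow_natCast]
      apply Real.rpow_le_rpow_of_exponent_le hz1
      rw [hd] at hdeg
      push_cast at hdeg ⊢
      nlinarith
    have h4 : (c * ‖z‖ ^ g.natDegree) ^ 2 ≤ ‖g.eval z‖ ^ 2 :=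
      pow_le_pow_left₀ (by positivity) (hgb z hz) 2
    have h5 : (c * ‖z‖ ^ g.natDegree) ^ 2 * nsq (H z) (N₂ z)
        ≤ C₂ ^ (a' + 1) * (‖z‖ ^ g.natDegree) ^ 2 := by
      refine (mul_le_mul_of_nonneg_right h4 (nsq_nonneg hR hF hz' _)).trans (h1.trans ?_)
      rw [mul_pow]
      exact mul_le_mul_of_nonneg_left h2 (by positivity)
    rw [le_div_iff₀ (by positivity)]
    have h6 : 0 < (‖z‖ ^ g.natDegree) ^ 2 := by positivity
    refine le_of_mul_le_mul_right ?_ h6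
    rw [mul_pow] at h5
    linarith
  have hcont : ContinuousOn (fun z => nsq (H z) (N₂ z)) (closedBall 0 R) := fun z _ =>
    (hB n _ A H N₂ isOpen_univ hH' (holo_map_ev _ _) z
      (Set.mem_univ z)).1.continuousAt.continuousWithinAt
  obtain ⟨B, hBb⟩ := (isCompact_closedBall (0 : ℂ) R).bddAbove_image hcont
  have hz := at_zero hR hF h3 hB hL isOpen_univ (fun z _ => Set.mem_univ z) hH'
    (N := N₂) (holo_map_ev _ _)
    (fun z _ => by
      obtain ⟨L, -, h2, -⟩ := hlist _ hG z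
      refine ⟨1, L, M, by rw [one_smul]; exact h2, ?_⟩
      rw [← h2, hpow, hGM, hzero])
    (max B (C₂ ^ (a' + 1) / c ^ 2))
    (fun z _ => by
      rcases le_total ‖z‖ R with h | h
      · exact le_max_of_le_left (hBb ⟨z, mem_closedBall_zero_iff.2 h, rfl⟩)
      · exact le_max_of_le_right (hfar z h)) 1 one_ne_zero
  obtain ⟨L, h1, h2, -⟩ := hlist _ hG 1
  refine hNe n (fun j => (q j).eval 1) L (by rw [h1]; exact hGn) ?_
  rw [← hAe, ← h2]
  exact hz

end Pool.Agent.MP_4f0bc7_gt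

end

section

namespace Pool.Agent.MP_4f0bc7_gt

open Matrix Polynomial

def CritStmt : Prop := ∀ (n : ℕ) (ρ : ℝ) (q : ℕ → ℂ[X]) (D G : ℂ[X][X]) (g : ℂ[X]) (a M : ℕ),
  0 ≤ ρ → (∀ j, 2 ≤ j → j ≤ n → ((q j).natDegree : ℝ) ≤ j * ρ) →
  D.Monic → D ∣ (hitchin n q).charpoly → (hitchin n q).charpoly ∣ D ^ M →
  G.Monic → G.natDegree < n → g ≠ 0 → 1 ≤ a →
  (hitchin n q).charpoly ∣ D ^ a - C g * G →
  (a : ℝ) * (ρ * ((D.natDegree : ℝ) - 1) - 1) ≤ g.natDegree →
  ¬ ∃ H, IsHarmonicMetric Set.univ (fun z => hitchin n fun j => (q j).eval z) H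

lemma deg_Cor (c : ℕ → ℂ) (f : ℂ[X]) (j : ℕ) :
    ((C (c j) * f ^ j).natDegree : ℝ) ≤ j * (f.natDegree : ℝ) := by
  have := (natDegree_C_mul_le (c j) (f ^ j)).trans natDegree_pow_le
  exact_mod_cast this

lemma list_Cor (f : ℂ[X]) (hf : f ≠ 0) (l : ℂ) (L : List ℂ) (hL : ∀ x ∈ L, x ≠ l) :
    (L.map fun x => (X : ℂ[X][X]) - C (C x * f)).prod.Monic ∧
    (L.map fun x => (X : ℂ[X][X]) - C (C x * f)).prod.natDegree = L.length ∧
    (L.map fun x => (X : ℂ[X][X]) - C (C x * f)).prod.eval (C l * f) ≠ 0 ∧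
    ((L.map fun x => (X : ℂ[X][X]) - C (C x * f)).prod.eval (C l * f)).natDegree =
      L.length * f.natDegree := by
  induction L with
  | nil => simp
  | cons x L ih =>
    obtain ⟨h1, h2, h3, h4⟩ := ih fun y hy => hL y (List.mem_cons_of_mem _ hy)
    have hx : l - x ≠ 0 := sub_ne_zero.2 (hL x List.mem_cons_self).symm
    have e : eval (C l * f) ((X : ℂ[X][X]) - C (C x * f)) = C (l - x) * f := by
      rw [eval_sub, eval_X, eval_C, map_sub]; ring
    have h5 : C (l - x) * f ≠ 0 := mul_ne_zero (C_ne_zero.2 hx) hf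
    rw [List.map_cons, List.prod_cons, List.length_cons, eval_mul, e]
    refine ⟨(monic_X_sub_C _).mul h1, ?_, mul_ne_zero h5 h3, ?_⟩
    · rw [(monic_X_sub_C _).natDegree_mul h1, natDegree_X_sub_C, h2, add_comm]
    · rw [natDegree_mul h5 h3, h4, natDegree_C_mul hx]; ring

/-- one eigenvalue of large multiplicity -/
theorem no_metric_mult (hC : CritStmt) (hS : Scale2Stmt) (n : ℕ) (c : ℕ → ℂ) (f : ℂ[X]) (l : ℂ)
    (hf : f ≠ 0) (hm : 2 ≤ (hitchin n c).charpoly.rootMultiplicity l)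
    (hd : f.natDegree * (n - (hitchin n c).charpoly.rootMultiplicity l) <
      (hitchin n c).charpoly.rootMultiplicity l) :
    ¬ ∃ H, IsHarmonicMetric Set.univ (fun z => hitchin n fun j => c j * f.eval z ^ j) H := by
  have hP := charpoly_monic (hitchin n c)
  have hPd : (hitchin n c).charpoly.natDegree = n := by
    rw [charpoly_natDegree_eq_dim, Fintype.card_fin]
  obtain ⟨R₀, h1, h2⟩ := exists_eq_pow_rootMultiplicity_mul_and_not_dvd _ hP.ne_zero l
  obtain ⟨m, hm'⟩ : ∃ m, (hitchin n c).charpoly.rootMultiplicity l = m + 2 :=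
    ⟨_, (Nat.sub_add_cancel hm).symm⟩
  rw [hm'] at h1 hd
  have hR₀ : R₀.Monic := ((monic_X_sub_C l).pow (m + 2)).of_mul_monic_left (h1 ▸ hP)
  obtain ⟨L, hL1, hL2, hL3⟩ := monic_list R₀ hR₀
  have hn : n = m + 2 + L.length := by
    rw [← hPd, h1, ((monic_X_sub_C l).pow (m + 2)).natDegree_mul hR₀, natDegree_pow,
      natDegree_X_sub_C, mul_one, hL1]
  obtain ⟨r1, r2, r3, r4⟩ := list_Cor f hf l L fun x hx h =>
    h2 (dvd_iff_isRoot.2 (h ▸ hL3 x hx))
  have hch := hS n c (List.replicate (m + 2) l ++ L) f hf (by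
    rw [h1, List.map_append, List.prod_append, ← hL2, List.map_replicate, List.prod_replicate])
  rw [List.map_append, List.prod_append, List.map_replicate, List.prod_replicate] at hch
  set R := (L.map fun x => (X : ℂ[X][X]) - C (C x * f)).prod
  set Y : ℂ[X][X] := X - C (C l * f) with hY
  have mY : Y.Monic := monic_X_sub_C _
  have dY : Y.natDegree = 1 := natDegree_X_sub_C _
  have := hC n f.natDegree (fun j => C (c j) * f ^ j) (Y * R) (Y ^ (m + 1) * R)
    (R.eval (C l * f) ^ m) (m + 1) (m + 2) (Nat.cast_nonneg _) (fun j _ _ => deg_Cor c f j)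
    (mY.mul r1) (by rw [hch]; exact ⟨Y ^ (m + 1), by ring⟩)
    (by rw [hch]; exact ⟨R ^ (m + 1), by ring⟩) ((mY.pow _).mul r1)
    (by rw [(mY.pow _).natDegree_mul r1, natDegree_pow, dY, r2]; omega) (pow_ne_zero _ r3)
    (by omega) (by
      obtain ⟨T, hT⟩ := X_sub_C_dvd_sub_C_eval (p := R ^ m) (a := C l * f)
      rw [← hY] at hT
      rw [hch, ← eval_pow, mul_pow]
      exact ⟨T, by linear_combination (Y ^ (m + 1) * R) * hT⟩) (by
      rw [mY.natDegree_mul r1, dY, r2, natDegree_pow, r4]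
      rw [hn, Nat.add_sub_cancel_left] at hd
      have h3 : ((f.natDegree * L.length : ℕ) : ℝ) ≤ (m + 1 : ℕ) := by
        exact_mod_cast Nat.lt_succ_iff.1 hd
      push_cast at h3 ⊢
      nlinarith)
  simpa only [eval_mul, eval_C, eval_pow] using this

/-- two eigenvalues -/
theorem no_metric_two (hC : CritStmt) (hS : Scale2Stmt) (n : ℕ) (c : ℕ → ℂ) (f : ℂ[X]) (a b : ℂ)
    (i k : ℕ) (hf : f ≠ 0) (hn : 3 ≤ n)
    (hP : (hitchin n c).charpoly = (X - C a) ^ (i + 1) * (X - C b) ^ (k + 1))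
    (hd : f.natDegree ≤ 1) :
    ¬ ∃ H, IsHarmonicMetric Set.univ (fun z => hitchin n fun j => c j * f.eval z ^ j) H := by
  have hch := hS n c (List.replicate (i + 1) a ++ List.replicate (k + 1) b) f hf (by
    rw [hP, List.map_append, List.prod_append, List.map_replicate, List.prod_replicate,
      List.map_replicate, List.prod_replicate])
  rw [List.map_append, List.prod_append, List.map_replicate, List.prod_replicate,
    List.map_replicate, List.prod_replicate] at hch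
  set Y : ℂ[X][X] := X - C (C a * f) with hY
  set Z : ℂ[X][X] := X - C (C b * f) with hZ
  have mY : Y.Monic := monic_X_sub_C _
  have mZ : Z.Monic := monic_X_sub_C _
  have dd : (Y * Z).natDegree = 2 := by
    rw [mY.natDegree_mul mZ, natDegree_X_sub_C, natDegree_X_sub_C]
  have := hC n f.natDegree (fun j => C (c j) * f ^ j) (Y * Z) (Y * Z) 1 1 (i + k + 1)
    (Nat.cast_nonneg _) (fun j _ _ => deg_Cor c f j) (mY.mul mZ)
    (by rw [hch]; exact ⟨Y ^ i * Z ^ k, by ring⟩) (by rw [hch]; exact ⟨Y ^ k * Z ^ i, by ring⟩)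
    (mY.mul mZ) (by omega) one_ne_zero le_rfl (by simp) (by
      rw [dd]
      have h3 : (f.natDegree : ℝ) ≤ 1 := by exact_mod_cast hd
      simp only [natDegree_one]
      push_cast
      linarith)
  simpa only [eval_mul, eval_C, eval_pow] using this

lemma exists_mult {p : ℂ[X]} (hp : p ≠ 0) (h : ¬ p.Separable) :
    ∃ l, 2 ≤ p.rootMultiplicity l := by
  classical
  by_contra h1
  push Not at h1
  refine h ((nodup_roots_iff_of_splits hp (IsAlgClosed.splits p)).1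
    (Multiset.nodup_iff_count_le_one.2 fun l => ?_))
  rw [count_roots]
  exact Nat.lt_succ_iff.1 (h1 l)

/-- the example in every rank -/
theorem exists_example (hE : ExChStmt) (hR : RootStmt) (n : ℕ) (hn : 3 ≤ n) :
    ∃ c : ℕ → ℂ, (∃ j, 2 ≤ j ∧ j ≤ n ∧ c j ≠ 0) ∧
      (hitchin n c).charpoly.rootMultiplicity 1 = n - 1 := by
  obtain ⟨k, rfl⟩ : ∃ k, n = k + 2 := ⟨n - 2, by omega⟩
  have m1 : ((X - C (1 : ℂ)) ^ (k + 1)).Monic := (monic_X_sub_C _).pow _
  have d1 : ((X - C (1 : ℂ)) ^ (k + 1)).natDegree = k + 1 := by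
    rw [natDegree_pow, natDegree_X_sub_C, mul_one]
  have m2 : ((X - C (1 : ℂ)) ^ (k + 1) * (X - C (-(k + 1 : ℂ)))).Monic :=
    m1.mul (monic_X_sub_C _)
  have d2 : ((X - C (1 : ℂ)) ^ (k + 1) * (X - C (-(k + 1 : ℂ)))).natDegree = k + 2 := by
    rw [m1.natDegree_mul (monic_X_sub_C _), d1, natDegree_X_sub_C]
  obtain ⟨c, hc⟩ := hE (k + 2) _ (by omega) m2 d2 (by
    have h1 := nextCoeff_of_natDegree_pos (p := (X - C (1 : ℂ)) ^ (k + 1) *
      (X - C (-(k + 1 : ℂ)))) (by omega)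
    rw [d2] at h1
    rw [← h1, m1.nextCoeff_mul (monic_X_sub_C _), (monic_X_sub_C _).nextCoeff_pow,
      nextCoeff_X_sub_C, nextCoeff_X_sub_C]
    simp)
  have hne : (1 : ℂ) ≠ -(k + 1 : ℂ) := fun h => by
    have : ((k + 2 : ℕ) : ℂ) = 0 := by push_cast; linear_combination h
    exact Nat.cast_ne_zero.2 (by omega) this
  refine ⟨c, ?_, ?_⟩
  · by_contra h
    push Not at h
    have h2 : (0 : ℝ) < ((k + 2 : ℕ) : ℝ) := by positivity
    have := hR (k + 2) c (1 / (2 * ((k + 2 : ℕ) : ℝ))) (by positivity)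
      (fun j h1 h2 => by rw [h j h1 h2, norm_zero]; positivity) 1 (by rw [hc]; simp)
    rw [norm_one, mul_one_div, le_div_iff₀ (by positivity)] at this
    linarith
  · rw [hc, rootMultiplicity_mul m2.ne_zero, rootMultiplicity_X_sub_C_pow,
      rootMultiplicity_X_sub_C, if_neg hne]
    rfl

end Pool.Agent.MP_4f0bc7_gt

end
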