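import Pool.Agent.Mg.F4f0bc7.G2b7e7f
import Pool.Agent.Mg.F4f0bc7.G1fbd18

section

namespace Pool.Agent.MP_4f0bc7_gt

open Matrix
open scoped Matrix.Norms.L2Operator

variable {n : ℕ}

lemma norm_one_le_I : ‖(1 : Matrix (Fin n) (Fin n) ℂ)‖ ≤ 1 := by
  have h := CStarRing.norm_star_mul_self (x := (1 : Matrix (Fin n) (Fin n) ℂ))
  rw [star_one, one_mul] at h
  by_contra hc
  push Not at hc
  nlinarith

lemma norm_smul_one_I (l : ℂ) : ‖l • (1 : Matrix (Fin n) (Fin n) ℂ)‖ ≤ ‖l‖ := by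
  rw [norm_smul]
  exact mul_le_of_le_one_right (norm_nonneg _) norm_one_le_I

lemma norm_pow_I (Y : Matrix (Fin n) (Fin n) ℂ) (k : ℕ) : ‖Y ^ k‖ ≤ ‖Y‖ ^ k := by
  cases k with
  | zero => simpa using norm_one_le_I
  | succ k => exact norm_pow_le' Y (Nat.succ_pos k)

lemma norm_lin_I (Y : Matrix (Fin n) (Fin n) ℂ) (l : ℂ) (K : ℝ) (hl : ‖l‖ ≤ K) :
    ‖Y - l • (1 : Matrix (Fin n) (Fin n) ℂ)‖ ≤ ‖Y‖ + K :=
  (norm_sub_le _ _).trans (add_le_add le_rfl ((norm_smul_one_I l).trans hl))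

lemma norm_lp_I (Y : Matrix (Fin n) (Fin n) ℂ) (K : ℝ) (hK : 0 ≤ K) (L : List ℂ)
    (hL : ∀ l ∈ L, ‖l‖ ≤ K) : ‖lp Y L‖ ≤ (‖Y‖ + K) ^ L.length := by
  induction L with
  | nil => simpa using norm_one_le_I
  | cons l L ih =>
    rw [lp_cons, List.length_cons, pow_succ']
    exact (norm_mul_le _ _).trans (mul_le_mul (norm_lin_I Y l K (hL l List.mem_cons_self))
      (ih fun x hx => hL x (List.mem_cons_of_mem _ hx)) (norm_nonneg _) (by positivity))

lemma norm_pow_sub_lp_I (Y : Matrix (Fin n) (Fin n) ℂ) (K : ℝ) (hK : 0 ≤ K) (L : List ℂ)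
    (hL : ∀ l ∈ L, ‖l‖ ≤ K) :
    ‖Y ^ L.length - lp Y L‖ ≤ (‖Y‖ + K) ^ L.length - ‖Y‖ ^ L.length := by
  induction L with
  | nil => simp
  | cons l L ih =>
    have hL' : ∀ x ∈ L, ‖x‖ ≤ K := fun x hx => hL x (List.mem_cons_of_mem _ hx)
    have e : Y ^ (l :: L).length - lp Y (l :: L)
        = Y * (Y ^ L.length - lp Y L) + l • lp Y L := by
      rw [lp_cons, List.length_cons, pow_succ', sub_mul, mul_sub, smul_mul_assoc, one_mul]
      abel
    have h1 : ‖Y * (Y ^ L.length - lp Y L)‖ ≤ ‖Y‖ * ((‖Y‖ + K) ^ L.length - ‖Y‖ ^ L.length) :=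
      (norm_mul_le _ _).trans (mul_le_mul_of_nonneg_left (ih hL') (norm_nonneg _))
    have h2 : ‖l • lp Y L‖ ≤ K * (‖Y‖ + K) ^ L.length := by
      rw [norm_smul]
      exact mul_le_mul (hL l List.mem_cons_self) (norm_lp_I Y K hK L hL') (norm_nonneg _) hK
    rw [e]
    refine (norm_add_le _ _).trans ((add_le_add h1 h2).trans (le_of_eq ?_))
    rw [List.length_cons]; ring

lemma cancel_I (y c k2 s : ℝ) (m : ℕ) (hy : 0 < y)
    (h : y ^ (m + 2) ≤ s * y ^ (m + 2) + k2 * c * y ^ m) : (1 - s) * y ^ 2 ≤ k2 * c := by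
  have hm : 0 < y ^ m := pow_pos hy m
  refine le_of_mul_le_mul_right ?_ hm
  have : y ^ (m + 2) = y ^ 2 * y ^ m := by ring
  rw [this] at h
  linarith

theorem i2 (hF : FroStmt) (hCS : CSStmt) : I2Stmt := by
  intro n len
  obtain ⟨δ, hδ, hδb⟩ : ∃ δ : ℝ, 0 < δ ∧ (1 + δ) ^ len ≤ 3 / 2 := by
    have hc : ContinuousAt (fun δ : ℝ => (1 + δ) ^ len) 0 := by fun_prop
    have h1 : ∀ᶠ δ in nhds (0 : ℝ), (1 + δ) ^ len < 3 / 2 :=
      hc.eventually (gt_mem_nhds (by norm_num))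
    obtain ⟨ε, hε, h2⟩ := Metric.eventually_nhds_iff.1 h1
    refine ⟨ε / 2, by positivity, (h2 ?_).le⟩
    rw [Real.dist_eq, sub_zero, abs_of_pos (by positivity)]
    linarith
  set k : ℝ := 2 ^ len with hk
  refine ⟨1 + (n : ℝ) ^ 2 / δ ^ 2 + 2 * (n : ℝ) ^ 4 * k ^ 4, by positivity, ?_⟩
  intro Y L K hK hl h0 hb hlt
  obtain ⟨f1, f2⟩ := (hF n).1 Y
  have f3 := ((hF n).1 (Yᴴ * Y - Y * Yᴴ)).1
  set c := ‖Yᴴ * Y - Y * Yᴴ‖ with hc
  have hc0 : 0 ≤ c := norm_nonneg _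
  have hnK : (n : ℝ) ^ 2 / δ ^ 2 * K ^ 2 < (n : ℝ) ^ 2 * ‖Y‖ ^ 2 := by
    refine lt_of_le_of_lt ?_ (hlt.trans_le f2)
    apply mul_le_mul_of_nonneg_right _ (by positivity)
    have : 0 ≤ 2 * (n : ℝ) ^ 4 * k ^ 4 := by positivity
    linarith
  have hn0 : 0 < (n : ℝ) ^ 2 := by
    rcases (sq_nonneg (n : ℝ)).lt_or_eq with h | h
    · exact h
    · rw [← h] at hnK; simp at hnK
  have hKY : K < δ * ‖Y‖ := by
    have h1 : K ^ 2 < (δ * ‖Y‖) ^ 2 := by
      have h2 : (n : ℝ) ^ 2 * (K ^ 2 / δ ^ 2) < (n : ℝ) ^ 2 * ‖Y‖ ^ 2 := by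
        refine lt_of_eq_of_lt ?_ hnK
        ring
      have h3 := lt_of_mul_lt_mul_left h2 hn0.le
      rw [div_lt_iff₀ (by positivity)] at h3
      rw [mul_pow]; linarith
    exact lt_of_pow_lt_pow_left₀ 2 (by positivity) h1
  have hY : 0 < ‖Y‖ := by
    by_contra h
    have : ‖Y‖ = 0 := le_antisymm (not_lt.1 h) (norm_nonneg _)
    rw [this] at hKY
    linarith
  have h1 : ‖Y ^ len‖ ≤ ‖Y‖ ^ len / 2 := by
    have h2 := norm_pow_sub_lp_I Y K hK L hb
    rw [h0, sub_zero, hl] at h2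
    have h3 : (‖Y‖ + K) ^ len ≤ 3 / 2 * ‖Y‖ ^ len := by
      calc (‖Y‖ + K) ^ len ≤ ((1 + δ) * ‖Y‖) ^ len :=
            pow_le_pow_left₀ (by positivity) (by linarith) _
        _ ≤ 3 / 2 * ‖Y‖ ^ len := by
            rw [mul_pow]; exact mul_le_mul_of_nonneg_right hδb (by positivity)
    linarith
  obtain ⟨e, he⟩ : ∃ e, 2 ^ len = e + len := ⟨2 ^ len - len, by
    have := Nat.lt_two_pow_self (n := len); omega⟩
  have h2 : ‖Y ^ (2 ^ len)‖ ≤ ‖Y‖ ^ (2 ^ len) / 2 := by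
    rw [he, pow_add, pow_add, mul_div_assoc]
    exact (norm_mul_le _ _).trans (mul_le_mul (norm_pow_I Y e) h1 (norm_nonneg _) (by positivity))
  have h3 := hCS n len Y
  obtain ⟨m, hm⟩ : ∃ m, 2 * 2 ^ len = m + 2 := ⟨2 * 2 ^ len - 2, by
    have := Nat.one_le_two_pow (n := len); omega⟩
  have h4 : ‖Y ^ (2 ^ len)‖ ^ 2 ≤ 1 / 4 * ‖Y‖ ^ (m + 2) := by
    refine (pow_le_pow_left₀ (norm_nonneg _) h2 2).trans (le_of_eq ?_)
    rw [← hm, div_pow, ← pow_mul, mul_comm (2 ^ len) 2]; ring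
  rw [hm, Nat.add_sub_cancel] at h3
  have h5 := cancel_I ‖Y‖ c (k ^ 2) (1 / 4) m hY (by linarith)
  have h6 : ‖Y‖ ^ 2 ≤ 4 / 3 * (k ^ 2 * c) := by linarith
  have hf0 : 0 ≤ fro Y := (sq_nonneg _).trans f1
  calc fro Y ^ 2 ≤ ((n : ℝ) ^ 2 * (4 / 3 * (k ^ 2 * c))) ^ 2 :=
        pow_le_pow_left₀ hf0 (f2.trans (mul_le_mul_of_nonneg_left h6 hn0.le)) 2
    _ = 16 / 9 * ((n : ℝ) ^ 4 * k ^ 4) * c ^ 2 := by ring
    _ ≤ (1 + (n : ℝ) ^ 2 / δ ^ 2 + 2 * (n : ℝ) ^ 4 * k ^ 4) * fro (Yᴴ * Y - Y * Yᴴ) := by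
        refine mul_le_mul ?_ f3 (by positivity) (by positivity)
        have : 0 ≤ (n : ℝ) ^ 4 * k ^ 4 := by positivity
        have : 0 ≤ (n : ℝ) ^ 2 / δ ^ 2 := by positivity
        linarith

lemma comm_lp_I (Y N : Matrix (Fin n) (Fin n) ℂ) (K : ℝ) (hK : 0 ≤ K) (hY : ‖Y‖ ≤ K)
    (L : List ℂ) (l : ℂ) (hL : ∀ x ∈ l :: L, ‖x‖ ≤ K) :
    ‖(lp Y (l :: L))ᴴ * N - N * (lp Y (l :: L))ᴴ‖
      ≤ ((L.length : ℝ) + 1) * (2 * K) ^ L.length * ‖Yᴴ * N - N * Yᴴ‖ := by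
  have hlin : ∀ x : ℂ, (Y - x • (1 : Matrix (Fin n) (Fin n) ℂ))ᴴ * N
      - N * (Y - x • (1 : Matrix (Fin n) (Fin n) ℂ))ᴴ = Yᴴ * N - N * Yᴴ := by
    intro x
    rw [conjTranspose_sub, conjTranspose_smul, conjTranspose_one, sub_mul, mul_sub,
      smul_mul_assoc, mul_smul_comm, one_mul, mul_one]
    abel
  induction L generalizing l with
  | nil => rw [lp_cons, lp_nil, mul_one, hlin]; simp
  | cons l' L ih =>
    have hL' : ∀ x ∈ l' :: L, ‖x‖ ≤ K := fun x hx => hL x (List.mem_cons_of_mem _ hx)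
    have h1 := ih l' hL'
    set P := lp Y (l' :: L) with hP
    set W := Y - l • (1 : Matrix (Fin n) (Fin n) ℂ) with hW
    have e : (lp Y (l :: l' :: L))ᴴ * N - N * (lp Y (l :: l' :: L))ᴴ
        = Pᴴ * (Wᴴ * N - N * Wᴴ) + (Pᴴ * N - N * Pᴴ) * Wᴴ := by
      rw [lp_cons, conjTranspose_mul]; noncomm_ring
    have h2 : ‖Pᴴ‖ ≤ (2 * K) ^ (L.length + 1) := by
      rw [l2_opNorm_conjTranspose]
      exact (norm_lp_I Y K hK _ hL').trans (pow_le_pow_left₀ (by positivity) (by linarith) _)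
    have h3 : ‖Wᴴ‖ ≤ 2 * K := by
      rw [l2_opNorm_conjTranspose]
      exact (norm_lin_I Y l K (hL l List.mem_cons_self)).trans (by linarith)
    rw [e, hlin]
    refine (norm_add_le _ _).trans ((add_le_add
      ((norm_mul_le _ _).trans (mul_le_mul_of_nonneg_right h2 (norm_nonneg _)))
      ((norm_mul_le _ _).trans (mul_le_mul h1 h3 (norm_nonneg _) (by positivity)))).trans
      (le_of_eq ?_))
    rw [List.length_cons]
    push_cast; ring

theorem i3 (hF : FroStmt) (hCS : CSStmt) : I3Stmt := by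
  intro n d M
  set k : ℝ := 2 ^ M with hk
  refine ⟨1 + (n : ℝ) ^ 4 * k ^ 4 * ((d : ℝ) + 1) ^ 2 * 4 ^ d, by positivity, ?_⟩
  intro Y L K hK hl hb hY h0
  obtain ⟨l, L, rfl⟩ : ∃ l L', L = l :: L' := by
    cases L with
    | nil => simp at hl
    | cons l L => exact ⟨l, L, rfl⟩
  have hl' : L.length = d := by simpa using hl
  set N := lp Y (l :: L) with hN
  obtain ⟨f1, f2⟩ := (hF n).1 N
  have f3 := ((hF n).1 (Yᴴ * N - N * Yᴴ)).1
  have hYK : ‖Y‖ ≤ K := le_of_sq_le_sq (((hF n).1 Y).1.trans hY) hK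
  have h1 := comm_lp_I Y N K hK hYK L l hb
  rw [← hN, hl'] at h1
  set c := ‖Yᴴ * N - N * Yᴴ‖ with hc
  have hc0 : 0 ≤ c := norm_nonneg _
  have h2 : ‖N‖ ^ 2 ≤ k ^ 2 * ‖Nᴴ * N - N * Nᴴ‖ := by
    rcases (norm_nonneg N).lt_or_eq with hpos | h
    · have h3 := hCS n M N
      obtain ⟨m, hm⟩ : ∃ m, 2 * 2 ^ M = m + 2 := ⟨2 * 2 ^ M - 2, by
        have := Nat.one_le_two_pow (n := M); omega⟩
      have h4 : N ^ (2 ^ M) = 0 := pow_eq_zero_of_le (Nat.lt_two_pow_self (n := M)).le h0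
      rw [h4, norm_zero, hm, Nat.add_sub_cancel] at h3
      have := cancel_I ‖N‖ ‖Nᴴ * N - N * Nᴴ‖ (k ^ 2) 0 m hpos (by linarith)
      linarith
    · have h6 : ‖N‖ ^ 2 = 0 := by rw [← h]; norm_num
      exact h6.trans_le (mul_nonneg (sq_nonneg _) (norm_nonneg _))
  have h5 : ‖N‖ ^ 2 ≤ k ^ 2 * (((d : ℝ) + 1) * (2 * K) ^ d * c) :=
    h2.trans (mul_le_mul_of_nonneg_left h1 (by positivity))
  have hf0 : 0 ≤ fro N := (sq_nonneg _).trans f1
  calc fro N ^ 2 ≤ ((n : ℝ) ^ 2 * (k ^ 2 * (((d : ℝ) + 1) * (2 * K) ^ d * c))) ^ 2 :=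
        pow_le_pow_left₀ hf0 (f2.trans (mul_le_mul_of_nonneg_left h5 (by positivity))) 2
    _ = ((n : ℝ) ^ 4 * k ^ 4 * ((d : ℝ) + 1) ^ 2 * 4 ^ d) * K ^ (2 * d) * c ^ 2 := by
        have : (4 : ℝ) ^ d = (2 ^ d) ^ 2 := by rw [← pow_mul, mul_comm, pow_mul]; norm_num
        rw [this, mul_pow 2 K]; ring
    _ ≤ _ := by
        refine mul_le_mul (mul_le_mul_of_nonneg_right ?_ (by positivity)) f3 (by positivity)
          (by positivity)
        linarith

end Pool.Agent.MP_4f0bc7_gt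

end

section

namespace Pool.Agent.MP_4f0bc7_gt

open Matrix

lemma ent_HNe (n : ℕ) (q : ℕ → ℂ) (L : List ℂ) (a b : Fin n) :
    (b.val + L.length < a.val → lp (hitchin n q) L a b = 0) ∧
      (a.val = b.val + L.length → lp (hitchin n q) L a b = 1) := by
  induction L generalizing a with
  | nil =>
    rw [lp_nil, List.length_nil, add_zero]
    exact ⟨fun h => Matrix.one_apply_ne (Fin.ne_of_val_ne h.ne'), fun h => by
      rw [Fin.ext h, Matrix.one_apply_eq]⟩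
  | cons l L ih =>
    have e : ∀ c : Fin n, c.val < a.val → (hitchin n q - l • (1 : Matrix (Fin n) (Fin n) ℂ)) a c =
        if a.val = c.val + 1 then 1 else 0 := fun c hc => by
      rw [Matrix.sub_apply, Matrix.smul_apply, Matrix.one_apply_ne (Fin.ne_of_val_ne hc.ne'),
        smul_zero, sub_zero, hitchin, Matrix.of_apply, if_neg (not_lt.2 hc.le)]
    rw [lp_cons, Matrix.mul_apply, List.length_cons]
    refine ⟨fun h => Finset.sum_eq_zero fun c _ => ?_, fun h => ?_⟩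
    · rcases lt_or_ge (b.val + L.length) c.val with h1 | h1
      · rw [(ih c).1 h1, mul_zero]
      · rw [e c (by omega), if_neg (by omega), zero_mul]
    · have ha := a.isLt
      rw [Finset.sum_eq_single_of_mem (⟨b.val + L.length, by omega⟩ : Fin n) (Finset.mem_univ _),
        e _ (by simp only; omega), if_pos (by simp only; omega), (ih _).2 rfl, one_mul]
      intro c _ hc
      have hc' : c.val ≠ b.val + L.length := fun h' => hc (Fin.ext h')
      rcases lt_or_ge (b.val + L.length) c.val with h1 | h1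
      · rw [(ih c).1 h1, mul_zero]
      · rw [e c (by omega), if_neg (by omega), zero_mul]

theorem hne : HNeStmt := by
  intro n q L h h0
  have := (ent_HNe n q L ⟨L.length, h⟩ ⟨0, by omega⟩).2 (by simp)
  rw [h0] at this
  simp at this

end Pool.Agent.MP_4f0bc7_gt

end

section

namespace Pool.Agent.MP_4f0bc7_gt

open Filter Topology Matrix Metric Polynomial

/-- the degree criterion on the complex line, without hypotheses -/
theorem crit' (n : ℕ) (ρ : ℝ) (q : ℕ → ℂ[X]) (D G : ℂ[X][X]) (g : ℂ[X]) (a M : ℕ) (hρ : 0 ≤ ρ)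
    (hq : ∀ j, 2 ≤ j → j ≤ n → ((q j).natDegree : ℝ) ≤ j * ρ)
    (hD : D.Monic) (hDP : D ∣ (hitchin n q).charpoly) (hPD : (hitchin n q).charpoly ∣ D ^ M)
    (hG : G.Monic) (hGn : G.natDegree < n) (hg : g ≠ 0) (ha : 1 ≤ a)
    (hrel : (hitchin n q).charpoly ∣ D ^ a - C g * G)
    (hdeg : (a : ℝ) * (ρ * ((D.natDegree : ℝ) - 1) - 1) ≤ g.natDegree) :
    ¬ ∃ H, IsHarmonicMetric Set.univ (fun z => hitchin n fun j => (q j).eval z) H :=
  crit red froS (i2 froS cs) (i3 froS cs) (boch red froS) ko liou hne rootS polyS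
    n ρ q D G g a M hρ hq hD hDP hPD hG hGn hg ha hrel hdeg

lemma exists_dup_list (n : ℕ) (c : ℕ → ℂ) (h : ¬ (hitchin n c).charpoly.Separable) :
    ∃ (μ : ℂ) (L : List ℂ), L.length + 2 = n ∧ lp (hitchin n c) (μ :: μ :: L) = 0 := by
  obtain ⟨L₀, h1, h2, -⟩ := monic_list _ (hitchin n c).charpoly_monic
  have hnd : ¬ L₀.Nodup := by
    intro hnd
    apply h
    rw [← nodup_roots_iff_of_splits (hitchin n c).charpoly_monic.ne_zero (IsAlgClosed.splits _), h2]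
    have : (L₀.map fun l => (X : ℂ[X]) - C l).prod
        = (((L₀ : Multiset ℂ)).map fun l => (X : ℂ[X]) - C l).prod := by simp
    rw [this, roots_multiset_prod_X_sub_C]
    exact Multiset.coe_nodup.2 hnd
  obtain ⟨μ, hμ⟩ := List.exists_duplicate_iff_not_nodup.2 hnd
  obtain ⟨L, hL⟩ := (List.duplicate_iff_sublist.1 hμ).exists_perm_append
  refine ⟨μ, L, ?_, ?_⟩
  · have := hL.length_eq
    rw [h1, Matrix.charpoly_natDegree_eq_dim, Fintype.card_fin] at this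
    simp at this
    omega
  · have h3 : ((μ :: μ :: L).map fun l => (X : ℂ[X]) - C l).prod
        = (L₀.map fun l => (X : ℂ[X]) - C l).prod := ((hL.map _).prod_eq).symm
    rw [lp_eq_aeval, h3, ← h2, Matrix.aeval_self_charpoly]

lemma lp_sq_zero {n : ℕ} (Y : Matrix (Fin n) (Fin n) ℂ) (μ : ℂ) (L : List ℂ)
    (h : lp Y (μ :: μ :: L) = 0) : lp Y (μ :: L) ^ 2 = 0 := by
  have hc : Commute (lp Y L) (Y - μ • (1 : Matrix (Fin n) (Fin n) ℂ)) :=
    ((commute_lp Y Y (Commute.refl _) L).symm).sub_right ((Commute.one_right _).smul_right μ)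
  rw [lp_cons, lp_cons] at h
  rw [lp_cons, sq, mul_assoc, ← mul_assoc (lp Y L), hc.eq, ← mul_assoc, h, zero_mul]

lemma norm_le_sum_list (L : List ℂ) : 0 ≤ (L.map fun x => ‖x‖).sum ∧
    ∀ l ∈ L, ‖l‖ ≤ (L.map fun x => ‖x‖).sum := by
  have h : ∀ x ∈ L.map fun x => ‖x‖, 0 ≤ x := by
    intro x hx
    obtain ⟨y, -, rfl⟩ := List.mem_map.1 hx
    exact norm_nonneg _
  exact ⟨List.sum_nonneg h, fun l hl => List.single_le_sum h _ (List.mem_map.2 ⟨l, hl, rfl⟩)⟩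

/-- constant differentials on the complex line with a repeated eigenvalue -/
theorem const_none (n : ℕ) (c : ℕ → ℂ) (h : ¬ (hitchin n c).charpoly.Separable) :
    ¬ ∃ H, IsHarmonicMetric Set.univ (fun _ => hitchin n c) H := by
  rintro ⟨H, hH⟩
  obtain ⟨μ, L, hl, h0⟩ := exists_dup_list n c h
  obtain ⟨C, hC, hLE⟩ := le_est red (i2 froS cs) (i3 froS cs) (boch red froS) ko n n L.length 2
  obtain ⟨hs0, hs⟩ := norm_le_sum_list (μ :: μ :: L)
  set K := 1 + ((μ :: μ :: L).map fun x => ‖x‖).sum with hK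
  have hb : ∀ r : ℝ, 1 ≤ r →
      nsq (H 0) (lp (hitchin n c) (μ :: L)) ≤ C * K ^ (2 * L.length) / r ^ 2 := fun r hr =>
    hLE Set.univ _ H (fun _ => lp (hitchin n c) (μ :: L)) 0 r K isOpen_univ hH
      (fun a b => differentiableOn_const _) (fun a b => differentiableOn_const _) (by linarith)
      (Set.subset_univ _) (one_le_mul_of_one_le_of_one_le (by linarith) hr)
      (fun w _ => ⟨μ :: μ :: L, hl, h0, fun l hl => by linarith [hs l hl]⟩)
      (fun w _ => ⟨μ :: L, rfl, rfl, lp_sq_zero _ _ _ h0,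
        fun l hl => by linarith [hs l (List.mem_cons_of_mem _ hl)]⟩)
  have ht : Tendsto (fun r : ℝ => C * K ^ (2 * L.length) / r ^ 2) atTop (𝓝 0) :=
    tendsto_const_nhds.div_atTop (tendsto_pow_atTop two_ne_zero)
  have hle := ge_of_tendsto ht (by filter_upwards [eventually_ge_atTop 1] with r hr using hb r hr)
  exact hne n c (μ :: L) (by simp; omega)
    (eq_zero_of_nsq red froS (hH.2.1 0 (Set.mem_univ _)) hle)

lemma holo_lp {n : ℕ} {U : Set ℂ} {A : ℂ → Matrix (Fin n) (Fin n) ℂ} {s : ℂ → ℂ}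
    (hA : ∀ a b, DifferentiableOn ℂ (fun w => A w a b) U) (hs : DifferentiableOn ℂ s U)
    (L : List ℂ) : ∀ a b, DifferentiableOn ℂ (fun w => lp (A w) (L.map fun l => l * s w) a b) U := by
  induction L with
  | nil => intro a b; simp
  | cons l L ih =>
    intro a b
    simp only [List.map_cons, lp_cons, Matrix.mul_apply, Matrix.sub_apply, Matrix.smul_apply,
      smul_eq_mul]
    exact DifferentiableOn.fun_sum fun j _ =>
      ((hA a j).fun_sub ((hs.const_mul l).mul_const _)).fun_mul (ih j b)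

/-- logarithmic differentials on the punctured line with a repeated eigenvalue -/
theorem logpole_none (n : ℕ) (c : ℕ → ℂ) (h : ¬ (hitchin n c).charpoly.Separable) :
    ¬ ∃ H, IsHarmonicMetric {0}ᶜ (fun z => hitchin n fun j => c j / z ^ j) H := by
  rintro ⟨H, hH⟩
  set A : ℂ → Matrix (Fin n) (Fin n) ℂ := fun z => hitchin n fun j => c j * z⁻¹ ^ j with hA
  have hH' : IsHarmonicMetric {0}ᶜ A H := by
    have : A = fun z => hitchin n fun j => c j / z ^ j := by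
      funext z; simp only [hA, div_eq_mul_inv, inv_pow]
    rw [this]; exact hH
  have hinv : DifferentiableOn ℂ (fun z : ℂ => z⁻¹) {0}ᶜ :=
    differentiableOn_id.inv fun z hz => hz
  have hAh : ∀ a b, DifferentiableOn ℂ (fun w => A w a b) {0}ᶜ := by
    intro a b
    simp only [hA, hitchin, Matrix.of_apply]
    split_ifs
    · exact differentiableOn_const _
    · exact (hinv.pow _).const_mul _
    · exact differentiableOn_const _
  obtain ⟨μ, L, hl, h0⟩ := exists_dup_list n c h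
  obtain ⟨C, hC, hLE⟩ := le_est red (i2 froS cs) (i3 froS cs) (boch red froS) ko n n L.length 2
  obtain ⟨hs0, hs⟩ := norm_le_sum_list (μ :: μ :: L)
  set K := 2 * (1 + ((μ :: μ :: L).map fun x => ‖x‖).sum) with hK
  have hsc : ∀ w : ℂ, w ≠ 0 → lp (A w) ((μ :: μ :: L).map fun l => l * w⁻¹) = 0 := fun w hw =>
    scale1 n c w⁻¹ _ (inv_ne_zero hw) h0
  set N₁ : ℂ → Matrix (Fin n) (Fin n) ℂ := fun w => lp (A w) ((μ :: L).map fun l => l * w⁻¹)
    with hN₁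
  have hN₁h : ∀ a b, DifferentiableOn ℂ (fun w => N₁ w a b) {0}ᶜ := holo_lp hAh hinv _
  have hN₁2 : ∀ w : ℂ, w ≠ 0 → N₁ w ^ 2 = 0 := fun w hw => lp_sq_zero _ _ _ (hsc w hw)
  have hb : ∀ z : ℂ, z ≠ 0 →
      nsq (H z) (N₁ z) ≤ C * (K / ‖z‖) ^ (2 * L.length) / (‖z‖ / 2) ^ 2 := by
    intro z hz
    have hz0 : 0 < ‖z‖ := norm_pos_iff.2 hz
    have hw : ∀ w ∈ closedBall z (‖z‖ / 2), ‖z‖ / 2 ≤ ‖w‖ := by
      intro w hw
      have h1 := mem_closedBall.1 hw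
      rw [dist_comm, dist_eq_norm] at h1
      have h2 := norm_le_norm_add_norm_sub' z w
      linarith
    have hw0 : ∀ w ∈ closedBall z (‖z‖ / 2), w ≠ 0 := fun w h =>
      norm_pos_iff.1 (lt_of_lt_of_le (by positivity) (hw w h))
    have hroot : ∀ w ∈ closedBall z (‖z‖ / 2), ∀ l ∈ (μ :: μ :: L).map fun l => l * w⁻¹,
        ‖l‖ ≤ K / ‖z‖ := by
      intro w h l hl
      obtain ⟨x, hx, rfl⟩ := List.mem_map.1 hl
      have h1 := hw w h
      have h2 := hs x hx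
      rw [norm_mul, norm_inv, ← div_eq_mul_inv, div_le_div_iff₀ (by linarith) hz0]
      nlinarith [norm_nonneg x]
    refine hLE {0}ᶜ A H N₁ z (‖z‖ / 2) (K / ‖z‖) isOpen_compl_singleton hH' hAh hN₁h
      (by positivity) hw0 ?_
      (fun w h => ⟨_, by simpa using hl, hsc w (hw0 w h), hroot w h⟩)
      (fun w h => ⟨_, by simp, rfl, hN₁2 w (hw0 w h),
        fun l hl => hroot w h l (List.mem_cons_of_mem _ hl)⟩)
    have : K / ‖z‖ * (‖z‖ / 2) = K / 2 := by field_simp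
    rw [this]; linarith
  have hz := at_zero red froS (i3 froS cs) (boch red froS) liou isOpen_compl_singleton
    (fun z hz => hz) hH' (N := fun z => z ^ (L.length + 1) • N₁ z)
    (fun a b => by
      simp only [Matrix.smul_apply, smul_eq_mul]
      exact (differentiableOn_id.pow _).fun_mul (hN₁h a b))
    (fun z hz => ⟨_, _, 2, rfl, hN₁2 z hz⟩) (4 * C * K ^ (2 * L.length))
    (fun z hz => by
      have hz0 : 0 < ‖z‖ := norm_pos_iff.2 hz
      rw [nsq_smul red froS (hH'.2.1 z hz)]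
      refine (mul_le_mul_of_nonneg_left (hb z hz) (by positivity)).trans (le_of_eq ?_)
      rw [norm_pow, div_pow]
      field_simp
      ring) 1 one_ne_zero
  rw [one_pow, one_smul] at hz
  exact hne n _ _ (by simp; omega) hz

end Pool.Agent.MP_4f0bc7_gt

end
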