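import Pool.Agent.Mg.F4f0bc7.G2b7e7f

namespace Pool.Agent.MP_4f0bc7_gt

open Filter Topology Matrix Polynomial
open scoped ContDiff

variable {n : ℕ}

lemma det_ne_Ex {H : Matrix (Fin n) (Fin n) ℂ} (h : IsPosHerm H) : H.det ≠ 0 := by
  intro h0
  obtain ⟨v, hv, h1⟩ := Matrix.exists_mulVec_eq_zero_iff.2 h0
  have := h.2 v hv
  rw [h1] at this
  simp at this

/-- a matrix with separable characteristic polynomial is normal for some metric -/
theorem exists_normal (A : Matrix (Fin n) (Fin n) ℂ) (hs : A.charpoly.Separable) :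
    ∃ H : Matrix (Fin n) (Fin n) ℂ, IsPosHerm H ∧ A * adj H A = adj H A * A := by
  classical
  set s := A.charpoly.roots.toFinset with hs'
  have hp : Lagrange.nodal s id = A.charpoly := by
    have h1 := (IsAlgClosed.splits A.charpoly).eq_prod_roots_of_monic (charpoly_monic A)
    rw [Lagrange.nodal_eq, Finset.prod_eq_multiset_prod, hs', Multiset.toFinset_val,
      (nodup_roots hs).dedup]
    exact h1.symm
  let U : ℂ → Matrix (Fin n) (Fin n) ℂ := fun l => aeval A (Lagrange.basis s id l)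
  have hU : ∀ l ∈ s, ∀ f : ℂ[X], U l * aeval A f = f.eval l • U l := by
    intro l hl f
    obtain ⟨g, hg⟩ := X_sub_C_dvd_sub_C_eval (p := f) (a := l)
    have h1 : Lagrange.basis s id l * (X - C l) =
        C (Lagrange.nodalWeight s id l) * A.charpoly := by
      rw [Lagrange.basis_eq_prod_sub_inv_mul_nodal_div hl, ← Lagrange.nodal_erase_eq_nodal_div hl,
        ← hp, Lagrange.nodal_eq_mul_nodal_erase hl]
      simp only [id]; ring
    have h2 : Lagrange.basis s id l * f = C (f.eval l) * Lagrange.basis s id l +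
        C (Lagrange.nodalWeight s id l) * A.charpoly * g := by
      rw [← h1]; linear_combination Lagrange.basis s id l * hg
    simp only [U]
    rw [← map_mul, h2, map_add, map_mul, map_mul, map_mul, Matrix.aeval_self_charpoly, aeval_C,
      Algebra.algebraMap_eq_smul_one]
    simp
  let H := ∑ l ∈ s, (U l)ᴴ * U l
  have hH : IsPosHerm H := by
    refine ⟨by simp [H, conjTranspose_sum], fun v hv => ?_⟩
    have e : (star v ⬝ᵥ (H *ᵥ v)).re = ∑ l ∈ s, ∑ i, Complex.normSq ((U l *ᵥ v) i) := by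
      simp only [H, Matrix.sum_mulVec, dotProduct_sum, Complex.re_sum]
      refine Finset.sum_congr rfl fun l _ => ?_
      rw [← Matrix.mulVec_mulVec, Matrix.dotProduct_mulVec, ← Matrix.star_mulVec, dotProduct,
        Complex.re_sum]
      refine Finset.sum_congr rfl fun i _ => ?_
      rw [Pi.star_apply, Complex.star_def, ← Complex.normSq_eq_conj_mul_self, Complex.ofReal_re]
    rw [e]
    refine lt_of_le_of_ne (Finset.sum_nonneg fun l _ => Finset.sum_nonneg fun i _ =>
      Complex.normSq_nonneg _) fun h0 => hv ?_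
    have h1 : ∀ l ∈ s, U l *ᵥ v = 0 := fun l hl => by
      have h2 := (Finset.sum_eq_zero_iff_of_nonneg fun l _ => Finset.sum_nonneg fun i _ =>
        Complex.normSq_nonneg _).1 h0.symm l hl
      funext i
      exact Complex.normSq_eq_zero.1 ((Finset.sum_eq_zero_iff_of_nonneg fun i _ =>
        Complex.normSq_nonneg _).1 h2 i (Finset.mem_univ i))
    have hne : s.Nonempty := by
      rw [Finset.nonempty_iff_ne_empty]
      intro h3
      have h4 := congrArg natDegree hp
      rw [h3, Lagrange.nodal_empty, natDegree_one, charpoly_natDegree_eq_dim,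
        Fintype.card_fin] at h4
      subst h4
      exact hv (Subsingleton.elim _ _)
    have h5 : ∑ l ∈ s, U l = 1 := by
      simp only [U]
      rw [← map_sum, Lagrange.sum_basis (Set.injOn_id _) hne, map_one]
    rw [← Matrix.one_mulVec v, ← h5, Matrix.sum_mulVec]
    exact Finset.sum_eq_zero h1
  let f := Lagrange.interpolate s id fun l => star l
  have hB : Aᴴ * H = H * aeval A f := by
    simp only [H, Finset.mul_sum, Finset.sum_mul]
    refine Finset.sum_congr rfl fun l hl => ?_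
    have h1 := hU l hl X
    have h2 : f.eval l = star l := Lagrange.eval_interpolate_at_node _ (Set.injOn_id _) hl
    rw [aeval_X, eval_X] at h1
    rw [mul_assoc, hU l hl f, h2, ← mul_assoc, ← conjTranspose_mul, h1, conjTranspose_smul,
      smul_mul_assoc, mul_smul_comm]
  refine ⟨H, hH, ?_⟩
  have : adj H A = aeval A f := by
    rw [adj, mul_assoc, hB, ← mul_assoc, Matrix.nonsing_inv_mul _ (det_ne_Ex hH).isUnit, one_mul]
  rw [this]
  conv_lhs => rw [← aeval_X (R := ℂ) A]
  conv_rhs => rw [← aeval_X (R := ℂ) A]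
  simp only [aeval_X]
  have h := mul_comm X f
  have h' := congrArg (aeval A) h
  simpa only [map_mul, aeval_X] using h'

/-- flat metrics obtained from a constant one by a holomorphic change of frame -/
theorem gauge_flat {U : Set ℂ} (hU : IsOpen U) {E A : ℂ → Matrix (Fin n) (Fin n) ℂ} {f : ℂ → ℂ}
    {A₀ H₀ : Matrix (Fin n) (Fin n) ℂ} (hE : ∀ a b, DifferentiableOn ℂ (fun w => E w a b) U)
    (hd : ∀ z ∈ U, (E z).det ≠ 0) (hA : ∀ z ∈ U, E z * A z = f z • (A₀ * E z))
    (hH : IsPosHerm H₀) (hc : A₀ * adj H₀ A₀ = adj H₀ A₀ * A₀) :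
    ∃ H, IsHarmonicMetric U A H ∧ ∀ a b, ContDiffOn ℝ ∞ (fun z => H z a b) U := by
  have hM : ∀ (k : WithTop ℕ∞), ∀ z ∈ U, MC k E z := fun k z hz a b =>
    (((hE a b).analyticAt (hU.mem_nhds hz)).contDiffAt (n := k)).restrict_scalars ℝ
  have hC : ∀ (k : WithTop ℕ∞) (z : ℂ), MC k (fun _ => H₀) z := fun k z a b => contDiffAt_const
  have hS : ∀ (k : WithTop ℕ∞) a b, ContDiffOn ℝ k (fun z => ((E z)ᴴ * H₀ * E z) a b) U :=
    fun k a b z hz => ((((hM k z hz).ct.mul (hC k z)).mul (hM k z hz)) a b).contDiffWithinAt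
  have h0 := det_ne_Ex hH
  have inv : ∀ z ∈ U, ∀ X : Matrix (Fin n) (Fin n) ℂ,
      ((E z)ᴴ * H₀ * E z)⁻¹ * ((E z)ᴴ * (H₀ * X)) = (E z)⁻¹ * X := fun z hz X => by
    have h1 : ((E z)ᴴ).det ≠ 0 := by rw [det_conjTranspose]; exact star_ne_zero.2 (hd z hz)
    rw [Matrix.mul_inv_rev, Matrix.mul_inv_rev, mul_assoc, mul_assoc,
      Matrix.nonsing_inv_mul_cancel_left _ _ h1.isUnit,
      Matrix.nonsing_inv_mul_cancel_left _ _ h0.isUnit]
  refine ⟨fun z => (E z)ᴴ * H₀ * E z, ⟨hS 2, fun z hz => ⟨?_, fun v hv => ?_⟩, fun z hz => ?_⟩,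
    hS ∞⟩
  · simp only [conjTranspose_mul, conjTranspose_conjTranspose, hH.1, mul_assoc]
  · have h1 : E z *ᵥ v ≠ 0 := fun h => hd z hz (Matrix.exists_mulVec_eq_zero_iff.1 ⟨v, hv, h⟩)
    have h2 := hH.2 _ h1
    rwa [Matrix.star_mulVec, ← Matrix.dotProduct_mulVec, Matrix.mulVec_mulVec,
      Matrix.mulVec_mulVec] at h2
  · have e1 : (fun w => ((E w)ᴴ * H₀ * E w)⁻¹ * mdz (fun w => (E w)ᴴ * H₀ * E w) w) =ᶠ[𝓝 z]
        fun w => (E w)⁻¹ * mwd (-Complex.I) E w := by
      filter_upwards [hU.mem_nhds hz] with w hw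
      rw [mdz_eq, mwd_mul ((hM 1 w hw).ct.mul (hC 1 w)) (hM 1 w hw),
        mwd_mul (hM 1 w hw).ct (hC 1 w), mwd_const, mwd_ct (hM 1 w hw)]
      simp only [map_neg, Complex.conj_I, neg_neg, holo_mdzb hU hE hw, conjTranspose_zero,
        zero_mul, mul_zero, zero_add]
      rw [mul_assoc (E w)ᴴ H₀ (mwd _ E w), inv w hw]
    have e2 : adj ((E z)ᴴ * H₀ * E z) (A z) = star (f z) • ((E z)⁻¹ * (adj H₀ A₀ * E z)) := by
      have h1 : (A z)ᴴ * (E z)ᴴ = star (f z) • ((E z)ᴴ * A₀ᴴ) := by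
        rw [← conjTranspose_mul, hA z hz, conjTranspose_smul, conjTranspose_mul]
      have h2 : A₀ᴴ * (H₀ * E z) = H₀ * (adj H₀ A₀ * E z) := by
        simp only [adj, mul_assoc, Matrix.mul_nonsing_inv_cancel_left _ _ h0.isUnit]
      rw [adj, mul_assoc, mul_assoc (E z)ᴴ H₀ (E z), ← mul_assoc (A z)ᴴ, h1, smul_mul_assoc,
        mul_smul_comm, mul_assoc (E z)ᴴ, h2, ← mul_assoc (E z)ᴴ H₀ (E z), inv z hz]
    have e3 : A z = f z • ((E z)⁻¹ * (A₀ * E z)) := by
      rw [← mul_smul_comm, ← hA z hz, Matrix.nonsing_inv_mul_cancel_left _ _ (hd z hz).isUnit]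
    rw [mdzb_eq, mwd_congr e1, mwd_mul ((hM 1 z hz).inv (hd z hz)) (hM 2 z hz).mwd,
      mwd_inv (hM 1 z hz) (hd z hz), holo_mdzb hU hE hz, holo_mdzb hU (holo_mdz hU hE) hz, e2]
    conv_rhs => rw [e3]
    simp only [smul_mul_assoc, mul_smul_comm, mul_assoc, smul_smul,
      Matrix.mul_nonsing_inv_cancel_left _ _ (hd z hz).isUnit]
    rw [← mul_assoc A₀, hc, mul_assoc, mul_comm (f z)]
    simp

/-- `q_j = c_j f^j` with `f` holomorphic without zeros and separable characteristic polynomial -/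
theorem exists_metric {U : Set ℂ} (hU : IsOpen U) {f : ℂ → ℂ} (hf : DifferentiableOn ℂ f U)
    (h0 : ∀ z ∈ U, f z ≠ 0) (c : ℕ → ℂ) (hs : (hitchin n c).charpoly.Separable) :
    ∃ H, IsHarmonicMetric U (fun z => hitchin n fun j => c j * f z ^ j) H ∧
      ∀ a b, ContDiffOn ℝ ∞ (fun z => H z a b) U := by
  obtain ⟨H₀, hH, hc⟩ := exists_normal _ hs
  refine gauge_flat hU (E := fun z => diagonal fun a => f z ^ a.val) (f := f) (fun a b => ?_)
    (fun z hz => ?_) (fun z hz => ?_) hH hc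
  · by_cases h : a = b
    · subst h; simp only [diagonal_apply_eq]; exact hf.pow a.val
    · simp only [diagonal_apply_ne _ h]; exact differentiableOn_const 0
  · rw [det_diagonal]
    exact Finset.prod_ne_zero_iff.2 fun a _ => pow_ne_zero _ (h0 z hz)
  · ext a b
    simp only [diagonal_mul, mul_diagonal, Matrix.smul_apply, hitchin, of_apply, smul_eq_mul]
    split_ifs with h1 h2
    · rw [h1]; ring
    · obtain ⟨t, ht⟩ := Nat.exists_eq_add_of_le h2.le
      rw [ht, Nat.add_sub_cancel_left]; ring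
    · simp

end Pool.Agent.MP_4f0bc7_gt
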