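import Pool.Agent.MP_4f0bc7_gt.Defs

section

namespace Pool.Agent.MP_4f0bc7_gt

open Matrix

/-- squared `H`-norm of an endomorphism -/
noncomputable def nsq {n : ℕ} (H X : Matrix (Fin n) (Fin n) ℂ) : ℝ :=
  (Matrix.trace (X * adj H X)).re

/-- product of the linear factors `X - l` over a list -/
noncomputable def lp {n : ℕ} (X : Matrix (Fin n) (Fin n) ℂ) (L : List ℂ) :
    Matrix (Fin n) (Fin n) ℂ :=
  (L.map fun l => X - l • (1 : Matrix (Fin n) (Fin n) ℂ)).prod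

/-- a quarter of the Laplacian of a real function -/
noncomputable def LL (u : ℂ → ℝ) (z : ℂ) : ℝ :=
  (dzb (dz fun w => ((u w : ℝ) : ℂ)) z).re

/-- generic Wirtinger-type derivative -/
noncomputable def wd (c : ℂ) (F : ℂ → ℂ) (z : ℂ) : ℂ :=
  (fderiv ℝ F z 1 + c * fderiv ℝ F z Complex.I) / 2

lemma dz_eq (F : ℂ → ℂ) : dz F = wd (-Complex.I) F := by
  funext z; simp [dz, wd, sub_eq_add_neg]

lemma dzb_eq (F : ℂ → ℂ) : dzb F = wd Complex.I F := rfl

@[simp] lemma lp_nil {n : ℕ} (X : Matrix (Fin n) (Fin n) ℂ) : lp X [] = 1 := by simp [lp]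

@[simp] lemma lp_cons {n : ℕ} (X : Matrix (Fin n) (Fin n) ℂ) (l : ℂ) (L : List ℂ) :
    lp X (l :: L) = (X - l • (1 : Matrix (Fin n) (Fin n) ℂ)) * lp X L := by simp [lp]

lemma lp_append {n : ℕ} (X : Matrix (Fin n) (Fin n) ℂ) (L L' : List ℂ) :
    lp X (L ++ L') = lp X L * lp X L' := by simp [lp]

lemma lp_eq_aeval {n : ℕ} (X : Matrix (Fin n) (Fin n) ℂ) (L : List ℂ) :
    lp X L = Polynomial.aeval X (L.map fun l => Polynomial.X - Polynomial.C l).prod := by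
  induction L with
  | nil => simp
  | cons l L ih => simp [ih, Algebra.algebraMap_eq_smul_one]

lemma commute_lp {n : ℕ} (X Y : Matrix (Fin n) (Fin n) ℂ) (h : Commute Y X) (L : List ℂ) :
    Commute Y (lp X L) := by
  induction L with
  | nil => simp
  | cons l L ih =>
    rw [lp_cons]
    exact (h.sub_right ((Commute.one_right Y).smul_right l)).mul_right ih

end Pool.Agent.MP_4f0bc7_gt

end

section

namespace Pool.Agent.MP_4f0bc7_gt

open Matrix Polynomial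
open scoped Matrix.Norms.L2Operator

/-- squared Frobenius norm -/
noncomputable def fro {n : ℕ} (Y : Matrix (Fin n) (Fin n) ℂ) : ℝ := (Matrix.trace (Y * Yᴴ)).re

/-- reduction of the metric to the standard one -/
def RedStmt : Prop := ∀ (n : ℕ) (H : Matrix (Fin n) (Fin n) ℂ), IsPosHerm H →
  H.det ≠ 0 ∧ ∃ φ : Matrix (Fin n) (Fin n) ℂ ≃ₐ[ℂ] Matrix (Fin n) (Fin n) ℂ,
    ∀ Y, φ (adj H Y) = (φ Y)ᴴ ∧ nsq H Y = fro (φ Y)

/-- basic facts on the Frobenius norm -/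
def FroStmt : Prop := ∀ (n : ℕ),
  (∀ Y : Matrix (Fin n) (Fin n) ℂ, ‖Y‖ ^ 2 ≤ fro Y ∧ fro Y ≤ (n : ℝ) ^ 2 * ‖Y‖ ^ 2) ∧
  (∀ (a : ℂ) (Y : Matrix (Fin n) (Fin n) ℂ), fro (a • Y) = ‖a‖ ^ 2 * fro Y) ∧
  (∀ Y Z : Matrix (Fin n) (Fin n) ℂ, fro (Y * Z) ≤ fro Y * fro Z)

/-- almost normal matrices have almost multiplicative powers (operator norm) -/
def CSStmt : Prop := ∀ (n j : ℕ) (Y : Matrix (Fin n) (Fin n) ℂ),
  ‖Y‖ ^ (2 * 2 ^ j) ≤ ‖Y ^ (2 ^ j)‖ ^ 2
    + ((2 : ℝ) ^ j) ^ 2 * ‖Yᴴ * Y - Y * Yᴴ‖ * ‖Y‖ ^ (2 * 2 ^ j - 2)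

def I2Stmt : Prop := ∀ (n len : ℕ), ∃ C : ℝ, 0 < C ∧
  ∀ (Y : Matrix (Fin n) (Fin n) ℂ) (L : List ℂ) (K : ℝ), 0 ≤ K → L.length = len → lp Y L = 0 →
    (∀ l ∈ L, ‖l‖ ≤ K) → C * K ^ 2 < fro Y → fro Y ^ 2 ≤ C * fro (Yᴴ * Y - Y * Yᴴ)

def I3Stmt : Prop := ∀ (n d M : ℕ), ∃ C : ℝ, 0 < C ∧
  ∀ (Y : Matrix (Fin n) (Fin n) ℂ) (L : List ℂ) (K : ℝ), 0 ≤ K → L.length = d + 1 →
    (∀ l ∈ L, ‖l‖ ≤ K) → fro Y ≤ K ^ 2 → lp Y L ^ M = 0 →
    fro (lp Y L) ^ 2 ≤ C * K ^ (2 * d) * fro (Yᴴ * lp Y L - lp Y L * Yᴴ)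

def HNeStmt : Prop := ∀ (n : ℕ) (q : ℕ → ℂ) (L : List ℂ), L.length < n → lp (hitchin n q) L ≠ 0

def RootStmt : Prop := ∀ (n : ℕ) (q : ℕ → ℂ) (K : ℝ), 0 < K →
  (∀ j, 2 ≤ j → j ≤ n → ‖q j‖ ≤ K ^ j) →
  ∀ l : ℂ, (hitchin n q).charpoly.IsRoot l → ‖l‖ ≤ n * K

def Scale1Stmt : Prop := ∀ (n : ℕ) (c : ℕ → ℂ) (s : ℂ) (L : List ℂ), s ≠ 0 →
  lp (hitchin n c) L = 0 → lp (hitchin n fun j => c j * s ^ j) (L.map fun l => l * s) = 0

def Scale2Stmt : Prop := ∀ (n : ℕ) (c : ℕ → ℂ) (L : List ℂ) (f : ℂ[X]), f ≠ 0 →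
  (hitchin n c).charpoly = (L.map fun l => (X : ℂ[X]) - C l).prod →
  (hitchin n fun j => C (c j) * f ^ j).charpoly
    = (L.map fun l => (X : ℂ[X][X]) - C (C l * f)).prod

def ExChStmt : Prop := ∀ (n : ℕ) (P : ℂ[X]), 1 ≤ n → P.Monic → P.natDegree = n →
  P.coeff (n - 1) = 0 → ∃ c : ℕ → ℂ, (hitchin n c).charpoly = P

def PolyStmt : Prop :=
  (∀ (p : ℂ[X]) (N : ℕ), p.natDegree ≤ N → ∃ C : ℝ, 0 < C ∧
    ∀ (w : ℂ) (T : ℝ), 1 ≤ T → ‖w‖ ≤ T → ‖p.eval w‖ ≤ C * T ^ N) ∧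
  (∀ p : ℂ[X], p ≠ 0 → ∃ c R : ℝ, 0 < c ∧ 1 ≤ R ∧
    ∀ w : ℂ, R ≤ ‖w‖ → c * ‖w‖ ^ p.natDegree ≤ ‖p.eval w‖)

def KOStmt : Prop := ∀ (u : ℂ → ℝ) (z₀ : ℂ) (r c : ℝ), 0 < r → 0 < c →
  (∀ w ∈ Metric.closedBall z₀ r, ContDiffAt ℝ 2 u w) →
  (∀ w ∈ Metric.ball z₀ r, 0 < u w → c * u w ^ 2 ≤ LL u w) → u z₀ ≤ 6 / (c * r ^ 2)

def LiouStmt : Prop := ∀ (u : ℂ → ℝ) (B : ℝ), (∀ z : ℂ, z ≠ 0 → ContDiffAt ℝ 2 u z) →
  (∀ z : ℂ, z ≠ 0 → u z ≤ B) → (∀ z : ℂ, z ≠ 0 → 0 < u z → 0 < LL u z) →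
  ∀ z : ℂ, z ≠ 0 → u z ≤ 0

def BochStmt : Prop := ∀ (n : ℕ) (U : Set ℂ) (A H N : ℂ → Matrix (Fin n) (Fin n) ℂ), IsOpen U →
  IsHarmonicMetric U A H → (∀ a b, DifferentiableOn ℂ (fun w => N w a b) U) →
  ∀ z ∈ U, ContDiffAt ℝ 2 (fun w => nsq (H w) (N w)) z ∧
    (N z * A z = A z * N z →
      nsq (H z) (adj (H z) (A z) * N z - N z * adj (H z) (A z))
        ≤ LL (fun w => nsq (H w) (N w)) z)

end Pool.Agent.MP_4f0bc7_gt

end

section

namespace Pool.Agent.MP_4f0bc7_gt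

open Filter Topology

variable {c z : ℂ} {F G : ℂ → ℂ}

lemma wd_of_hasFDerivAt {L : ℂ →L[ℝ] ℂ} (h : HasFDerivAt F L z) :
    wd c F z = (L 1 + c * L Complex.I) / 2 := by
  simp [wd, h.fderiv]

lemma wd_congr (h : F =ᶠ[𝓝 z] G) : wd c F z = wd c G z := by
  simp [wd, h.fderiv_eq]

lemma wd_eventuallyEq (h : F =ᶠ[𝓝 z] G) : wd c F =ᶠ[𝓝 z] wd c G := by
  filter_upwards [h.eventually_nhds] with w hw using wd_congr hw

lemma wd_const (a : ℂ) : wd c (fun _ => a) z = 0 := by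
  simp [wd]

lemma wd_add (hF : DifferentiableAt ℝ F z) (hG : DifferentiableAt ℝ G z) :
    wd c (fun w => F w + G w) z = wd c F z + wd c G z := by
  rw [wd_of_hasFDerivAt (hF.hasFDerivAt.fun_add hG.hasFDerivAt)]
  simp [wd]; ring

lemma wd_sub (hF : DifferentiableAt ℝ F z) (hG : DifferentiableAt ℝ G z) :
    wd c (fun w => F w - G w) z = wd c F z - wd c G z := by
  rw [wd_of_hasFDerivAt (hF.hasFDerivAt.fun_sub hG.hasFDerivAt)]
  simp [wd]; ring

lemma wd_neg : wd c (fun w => - F w) z = - wd c F z := by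
  simp [wd, fderiv_fun_neg]; ring

lemma wd_mul (hF : DifferentiableAt ℝ F z) (hG : DifferentiableAt ℝ G z) :
    wd c (fun w => F w * G w) z = wd c F z * G z + F z * wd c G z := by
  rw [wd_of_hasFDerivAt (hF.hasFDerivAt.fun_mul hG.hasFDerivAt)]
  simp [wd]; ring

lemma wd_const_mul (a : ℂ) (hF : DifferentiableAt ℝ F z) :
    wd c (fun w => a * F w) z = a * wd c F z := by
  rw [wd_mul (differentiableAt_const a) hF, wd_const]; ring

lemma wd_sum {ι : Type} (s : Finset ι) (f : ι → ℂ → ℂ)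
    (h : ∀ i ∈ s, DifferentiableAt ℝ (f i) z) :
    wd c (fun w => ∑ i ∈ s, f i w) z = ∑ i ∈ s, wd c (f i) z := by
  classical
  induction s using Finset.induction_on with
  | empty => simp [wd_const]
  | insert a s ha ih =>
    simp only [Finset.sum_insert ha]
    rw [wd_add (h a (Finset.mem_insert_self _ _))
      (DifferentiableAt.fun_sum fun i hi => h i (Finset.mem_insert_of_mem hi)),
      ih fun i hi => h i (Finset.mem_insert_of_mem hi)]

lemma differentiableAt_conj (hF : DifferentiableAt ℝ F z) :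
    DifferentiableAt ℝ (fun w => (starRingEnd ℂ) (F w)) z :=
  (Complex.conjCLE.differentiableAt).comp z hF

lemma contDiffAt_conj {k : WithTop ℕ∞} (hF : ContDiffAt ℝ k F z) :
    ContDiffAt ℝ k (fun w => (starRingEnd ℂ) (F w)) z :=
  (Complex.conjCLE.contDiff.contDiffAt).comp z hF

lemma wd_conj (hF : DifferentiableAt ℝ F z) :
    wd c (fun w => (starRingEnd ℂ) (F w)) z
      = (starRingEnd ℂ) (wd ((starRingEnd ℂ) c) F z) := by
  have h := (Complex.conjCLE.hasFDerivAt (x := F z)).comp z hF.hasFDerivAt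
  have h2 : HasFDerivAt (fun w => (starRingEnd ℂ) (F w))
      ((Complex.conjCLE : ℂ →L[ℝ] ℂ).comp (fderiv ℝ F z)) z := h
  rw [wd_of_hasFDerivAt h2]
  simp [wd, map_ofNat]

/-- chain rule with a holomorphic outer function -/
lemma wd_comp {g : ℂ → ℂ} {g' : ℂ} (hg : HasDerivAt g g' (F z)) (hF : DifferentiableAt ℝ F z) :
    wd c (fun w => g (F w)) z = g' * wd c F z := by
  have h := (hg.hasFDerivAt.restrictScalars ℝ).comp z hF.hasFDerivAt
  have h2 : HasFDerivAt (fun w => g (F w)) _ z := h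
  rw [wd_of_hasFDerivAt h2]
  simp [wd]; ring

lemma wd_id : wd c (fun w => w) z = (1 + c * Complex.I) / 2 := by
  have h : HasFDerivAt (fun w : ℂ => w) (ContinuousLinearMap.id ℝ ℂ) z := hasFDerivAt_id z
  rw [wd_of_hasFDerivAt h]; simp

lemma wd_holo {F' : ℂ} (hF : HasDerivAt F F' z) :
    wd c F z = F' * ((1 + c * Complex.I) / 2) := by
  have := wd_comp (c := c) (F := fun w => w) (z := z) hF differentiableAt_id
  rw [wd_id] at this
  exact this

lemma dz_holo {F' : ℂ} (hF : HasDerivAt F F' z) : dz F z = F' := by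
  rw [dz_eq, wd_holo hF]; simp

lemma dzb_holo (hF : DifferentiableAt ℂ F z) : dzb F z = 0 := by
  rw [dzb_eq, wd_holo hF.hasDerivAt]; simp

lemma dz_conj (hF : DifferentiableAt ℝ F z) :
    dz (fun w => (starRingEnd ℂ) (F w)) z = (starRingEnd ℂ) (dzb F z) := by
  rw [dz_eq, wd_conj hF, dzb_eq]; simp

lemma dzb_conj (hF : DifferentiableAt ℝ F z) :
    dzb (fun w => (starRingEnd ℂ) (F w)) z = (starRingEnd ℂ) (dz F z) := by
  rw [dzb_eq, wd_conj hF, dz_eq]; simp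

lemma contDiffAt_wd (hF : ContDiffAt ℝ 2 F z) : ContDiffAt ℝ 1 (wd c F) z := by
  have h1 : ContDiffAt ℝ 1 (fderiv ℝ F) z := hF.fderiv_right (by norm_num)
  have ha : ContDiffAt ℝ 1 (fun w => fderiv ℝ F w 1) z := h1.clm_apply contDiffAt_const
  have hb : ContDiffAt ℝ 1 (fun w => fderiv ℝ F w Complex.I) z := h1.clm_apply contDiffAt_const
  exact (ha.add (contDiffAt_const.mul hb)).div_const 2

lemma differentiableAt_wd (hF : ContDiffAt ℝ 2 F z) : DifferentiableAt ℝ (wd c F) z :=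
  (contDiffAt_wd hF).differentiableAt (by norm_num)

lemma eventually_differentiableAt (hF : ContDiffAt ℝ 2 F z) :
    ∀ᶠ w in 𝓝 z, DifferentiableAt ℝ F w := by
  filter_upwards [hF.eventually (by norm_num)] with w hw using hw.differentiableAt (by norm_num)

lemma contDiffAt_ofReal {u : ℂ → ℝ} {k : WithTop ℕ∞} (hu : ContDiffAt ℝ k u z) :
    ContDiffAt ℝ k (fun w => ((u w : ℝ) : ℂ)) z :=
  (Complex.ofRealCLM.contDiff.contDiffAt).comp z hu

lemma LL_congr {u v : ℂ → ℝ} (h : u =ᶠ[𝓝 z] v) : LL u z = LL v z := by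
  unfold LL
  rw [dzb_eq, dzb_eq, dz_eq, dz_eq]
  congr 1
  refine wd_congr (wd_eventuallyEq ?_)
  filter_upwards [h] with w hw using by rw [hw]

/-- `LL` computed from a complex-valued representative -/
lemma LL_eq_of_eventuallyEq {u : ℂ → ℝ} (h : (fun w => ((u w : ℝ) : ℂ)) =ᶠ[𝓝 z] F) :
    LL u z = (dzb (dz F) z).re := by
  unfold LL
  rw [dzb_eq, dzb_eq, dz_eq, dz_eq, wd_congr (wd_eventuallyEq h)]

lemma LL_sub {u v : ℂ → ℝ} (hu : ContDiffAt ℝ 2 u z) (hv : ContDiffAt ℝ 2 v z) :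
    LL (fun w => u w - v w) z = LL u z - LL v z := by
  have hu' := contDiffAt_ofReal hu
  have hv' := contDiffAt_ofReal hv
  have h1 : (wd (-Complex.I) fun w => ((u w - v w : ℝ) : ℂ)) =ᶠ[𝓝 z]
      fun w => wd (-Complex.I) (fun w => ((u w : ℝ) : ℂ)) w
        - wd (-Complex.I) (fun w => ((v w : ℝ) : ℂ)) w := by
    filter_upwards [eventually_differentiableAt hu', eventually_differentiableAt hv'] with w h1 h2
    rw [← wd_sub h1 h2]; simp
  unfold LL
  rw [dzb_eq, dzb_eq, dzb_eq, dz_eq, dz_eq, dz_eq, wd_congr h1,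
    wd_sub (differentiableAt_wd hu') (differentiableAt_wd hv')]
  simp

lemma LL_const (a : ℝ) : LL (fun _ => a) z = 0 := by
  unfold LL
  have : (dz fun _ : ℂ => ((a : ℝ) : ℂ)) = fun _ => 0 := by
    funext w; rw [dz_eq, wd_const]
  rw [this, dzb_eq, wd_const]; simp

lemma LL_sub_const {u : ℂ → ℝ} (hu : ContDiffAt ℝ 2 u z) (a : ℝ) :
    LL (fun w => u w - a) z = LL u z := by
  rw [LL_sub hu contDiffAt_const, LL_const, sub_zero]

lemma LL_const_mul {u : ℂ → ℝ} (hu : ContDiffAt ℝ 2 u z) (a : ℝ) :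
    LL (fun w => a * u w) z = a * LL u z := by
  have hu' := contDiffAt_ofReal hu
  have h1 : (wd (-Complex.I) fun w => ((a * u w : ℝ) : ℂ)) =ᶠ[𝓝 z]
      fun w => (a : ℂ) * wd (-Complex.I) (fun w => ((u w : ℝ) : ℂ)) w := by
    filter_upwards [eventually_differentiableAt hu'] with w h1
    rw [← wd_const_mul _ h1]; simp
  unfold LL
  rw [dzb_eq, dzb_eq, dz_eq, dz_eq, wd_congr h1, wd_const_mul _ (differentiableAt_wd hu')]
  simp

/-- second directional derivative at a local maximum -/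
lemma second_nonpos {u : ℂ → ℝ} (hu : ContDiffAt ℝ 2 u z) (hm : IsLocalMax u z) (e : ℂ) :
    fderiv ℝ (fun w => fderiv ℝ u w e) z e ≤ 0 := by
  by_contra hpos
  push Not at hpos
  set γ : ℝ → ℂ := fun t => z + t • e with hγ
  have hγd : ∀ t, HasDerivAt γ e t := fun t => by
    have := ((hasDerivAt_id t).smul_const e).const_add z
    rw [one_smul] at this
    exact this
  have hγ0 : γ 0 = z := by simp [hγ]
  have hγc : Tendsto γ (𝓝 0) (𝓝 z) := by
    have := (hγd 0).continuousAt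
    rwa [ContinuousAt, hγ0] at this
  have hd : ∀ᶠ w in 𝓝 z, DifferentiableAt ℝ u w := by
    filter_upwards [hu.eventually (by norm_num)] with w hw using hw.differentiableAt (by norm_num)
  have h1 : deriv (u ∘ γ) =ᶠ[𝓝 0] fun t => fderiv ℝ u (γ t) e := by
    filter_upwards [hγc.eventually hd] with t ht
    exact (ht.hasFDerivAt.comp_hasDerivAt t (hγd t)).deriv
  have h2d : DifferentiableAt ℝ (fun w => fderiv ℝ u w e) (γ 0) := by
    rw [hγ0]
    exact ((hu.fderiv_right (m := 1) (by norm_num)).clm_apply contDiffAt_const).differentiableAt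
      (by norm_num)
  have h2 : deriv (deriv (u ∘ γ)) 0 = fderiv ℝ (fun w => fderiv ℝ u w e) z e := by
    rw [h1.deriv_eq]
    have := (h2d.hasFDerivAt.comp_hasDerivAt 0 (hγd 0)).deriv
    rw [hγ0] at this
    exact this
  have hm' : IsLocalMax (u ∘ γ) 0 := by
    have : IsLocalMax u (γ 0) := by rwa [hγ0]
    exact this.comp_continuous (hγd 0).continuousAt
  have hc : ContinuousAt (u ∘ γ) 0 := by
    have : ContinuousAt u (γ 0) := by rw [hγ0]; exact hu.continuousAt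
    exact this.comp (hγd 0).continuousAt
  have hmin : IsLocalMin (u ∘ γ) 0 :=
    isLocalMin_of_deriv_deriv_pos (by rw [h2]; exact hpos) hm'.deriv_eq_zero hc
  have hcst : (u ∘ γ) =ᶠ[𝓝 0] fun _ => (u ∘ γ) 0 := by
    filter_upwards [hm', hmin] with t h1 h2 using le_antisymm h1 h2
  have : deriv (deriv (u ∘ γ)) 0 = 0 := by
    rw [hcst.deriv.deriv_eq]; simp
  rw [h2] at this
  exact hpos.ne' this

lemma LL_eq {u : ℂ → ℝ} (hu : ContDiffAt ℝ 2 u z) :
    LL u z = (fderiv ℝ (fun w => fderiv ℝ u w 1) z 1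
      + fderiv ℝ (fun w => fderiv ℝ u w Complex.I) z Complex.I) / 4 := by
  have hd : ∀ᶠ w in 𝓝 z, DifferentiableAt ℝ u w := by
    filter_upwards [hu.eventually (by norm_num)] with w hw using hw.differentiableAt (by norm_num)
  have hdd : ∀ e : ℂ, DifferentiableAt ℝ (fun w => fderiv ℝ u w e) z := fun e =>
    ((hu.fderiv_right (m := 1) (by norm_num)).clm_apply contDiffAt_const).differentiableAt
      (by norm_num)
  have h1 : (dz fun w => ((u w : ℝ) : ℂ)) =ᶠ[𝓝 z]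
      fun w => (((fderiv ℝ u w 1 : ℝ) : ℂ) - Complex.I * ((fderiv ℝ u w Complex.I : ℝ) : ℂ)) / 2 := by
    filter_upwards [hd] with w hw
    have h : HasFDerivAt (fun w => ((u w : ℝ) : ℂ)) (Complex.ofRealCLM.comp (fderiv ℝ u w)) w :=
      Complex.ofRealCLM.hasFDerivAt.comp w hw.hasFDerivAt
    simp [dz, h.fderiv]
  have ha : HasFDerivAt (fun w => ((fderiv ℝ u w 1 : ℝ) : ℂ))
      (Complex.ofRealCLM.comp (fderiv ℝ (fun w => fderiv ℝ u w 1) z)) z :=
    Complex.ofRealCLM.hasFDerivAt.comp z (hdd 1).hasFDerivAt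
  have hb : HasFDerivAt (fun w => ((fderiv ℝ u w Complex.I : ℝ) : ℂ))
      (Complex.ofRealCLM.comp (fderiv ℝ (fun w => fderiv ℝ u w Complex.I) z)) z :=
    Complex.ofRealCLM.hasFDerivAt.comp z (hdd Complex.I).hasFDerivAt
  unfold LL
  rw [dzb_eq, wd_congr h1]
  have h3 : (fun w => (((fderiv ℝ u w 1 : ℝ) : ℂ)
      - Complex.I * ((fderiv ℝ u w Complex.I : ℝ) : ℂ)) / 2)
      = fun w => (1 / 2 : ℂ) * (((fderiv ℝ u w 1 : ℝ) : ℂ)
      - Complex.I * ((fderiv ℝ u w Complex.I : ℝ) : ℂ)) := by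
    funext w; ring
  rw [h3, wd_const_mul _ (ha.differentiableAt.fun_sub (hb.differentiableAt.const_mul _)),
    wd_sub ha.differentiableAt (hb.differentiableAt.const_mul _),
    wd_const_mul _ hb.differentiableAt, wd_of_hasFDerivAt ha, wd_of_hasFDerivAt hb]
  simp
  ring

lemma LL_nonpos_of_isLocalMax {u : ℂ → ℝ} (hu : ContDiffAt ℝ 2 u z) (hm : IsLocalMax u z) :
    LL u z ≤ 0 := by
  rw [LL_eq hu]
  have h1 := second_nonpos hu hm 1
  have h2 := second_nonpos hu hm Complex.I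
  linarith

end Pool.Agent.MP_4f0bc7_gt

end

section

namespace Pool.Agent.MP_4f0bc7_gt

open Filter Topology Matrix

variable {n : ℕ} {c z : ℂ} {k : WithTop ℕ∞} {F G : ℂ → Matrix (Fin n) (Fin n) ℂ}

/-- entrywise generic Wirtinger derivative -/
noncomputable def mwd (c : ℂ) (F : ℂ → Matrix (Fin n) (Fin n) ℂ) (z : ℂ) :
    Matrix (Fin n) (Fin n) ℂ :=
  Matrix.of fun a b => wd c (fun w => F w a b) z

lemma mdz_eq (F : ℂ → Matrix (Fin n) (Fin n) ℂ) : mdz F = mwd (-Complex.I) F := by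
  funext z; ext a b; simp [mdz, mwd, dz_eq]

lemma mdzb_eq (F : ℂ → Matrix (Fin n) (Fin n) ℂ) : mdzb F = mwd Complex.I F := rfl

/-- entrywise smoothness -/
def MC (k : WithTop ℕ∞) (F : ℂ → Matrix (Fin n) (Fin n) ℂ) (z : ℂ) : Prop :=
  ∀ a b, ContDiffAt ℝ k (fun w => F w a b) z

lemma MC.mul (hF : MC k F z) (hG : MC k G z) : MC k (fun w => F w * G w) z := by
  intro a b
  simp only [Matrix.mul_apply]
  exact ContDiffAt.sum fun j _ => (hF a j).mul (hG j b)

lemma MC.add (hF : MC k F z) (hG : MC k G z) : MC k (fun w => F w + G w) z :=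
  fun a b => (hF a b).add (hG a b)

lemma MC.sub (hF : MC k F z) (hG : MC k G z) : MC k (fun w => F w - G w) z :=
  fun a b => (hF a b).sub (hG a b)

lemma MC.ct (hF : MC k F z) : MC k (fun w => (F w)ᴴ) z :=
  fun a b => contDiffAt_conj (hF b a)

lemma MC.trace (hF : MC k F z) : ContDiffAt ℝ k (fun w => Matrix.trace (F w)) z := by
  simp only [Matrix.trace, Matrix.diag]
  exact ContDiffAt.sum fun j _ => hF j j

lemma MC.det (hF : MC k F z) : ContDiffAt ℝ k (fun w => (F w).det) z := by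
  simp only [Matrix.det_apply']
  exact ContDiffAt.sum fun σ _ => contDiffAt_const.mul (contDiffAt_prod fun i _ => hF _ _)

lemma MC.inv (hF : MC k F z) (h : (F z).det ≠ 0) : MC k (fun w => (F w)⁻¹) z := by
  intro a b
  simp only [Matrix.inv_def, Matrix.smul_apply, Ring.inverse_eq_inv', smul_eq_mul,
    Matrix.adjugate_apply]
  refine (hF.det.inv h).mul (MC.det ?_)
  intro i j
  simp only [Matrix.updateRow_apply]
  split_ifs
  · exact contDiffAt_const
  · exact hF i j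

lemma MC.of_le {m : WithTop ℕ∞} (hF : MC k F z) (h : m ≤ k) : MC m F z :=
  fun a b => (hF a b).of_le h

lemma MC.one (hF : MC 2 F z) : MC 1 F z := hF.of_le (by norm_num)

lemma MC.diff (hF : MC 1 F z) (a b : Fin n) : DifferentiableAt ℝ (fun w => F w a b) z :=
  (hF a b).differentiableAt (by norm_num)

lemma MC.eventually (hF : MC 2 F z) : ∀ᶠ w in 𝓝 z, MC 2 F w := by
  unfold MC
  rw [eventually_all]; intro a
  rw [eventually_all]; intro b
  exact (hF a b).eventually (by norm_num)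

lemma MC.mwd (hF : MC 2 F z) : MC 1 (mwd c F) z := fun a b => contDiffAt_wd (hF a b)

lemma mwd_congr (h : F =ᶠ[𝓝 z] G) : mwd c F z = mwd c G z := by
  ext a b
  refine wd_congr ?_
  filter_upwards [h] with w hw using by rw [hw]

lemma mwd_const (M : Matrix (Fin n) (Fin n) ℂ) : mwd c (fun _ => M) z = 0 := by
  ext a b; simp [mwd, wd_const]

lemma mwd_mul (hF : MC 1 F z) (hG : MC 1 G z) :
    mwd c (fun w => F w * G w) z = mwd c F z * G z + F z * mwd c G z := by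
  ext a b
  simp only [mwd, Matrix.of_apply, Matrix.mul_apply, Matrix.add_apply]
  rw [wd_sum _ (fun j w => F w a j * G w j b) fun j _ => (hF.diff a j).mul (hG.diff j b),
    ← Finset.sum_add_distrib]
  exact Finset.sum_congr rfl fun j _ => wd_mul (hF.diff a j) (hG.diff j b)

lemma mwd_add (hF : MC 1 F z) (hG : MC 1 G z) :
    mwd c (fun w => F w + G w) z = mwd c F z + mwd c G z := by
  ext a b
  exact wd_add (hF.diff a b) (hG.diff a b)

lemma mwd_sub (hF : MC 1 F z) (hG : MC 1 G z) :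
    mwd c (fun w => F w - G w) z = mwd c F z - mwd c G z := by
  ext a b
  exact wd_sub (hF.diff a b) (hG.diff a b)

lemma mwd_ct (hF : MC 1 F z) :
    mwd c (fun w => (F w)ᴴ) z = (mwd ((starRingEnd ℂ) c) F z)ᴴ := by
  ext a b
  exact wd_conj (hF.diff b a)

lemma wd_trace (hF : MC 1 F z) :
    wd c (fun w => Matrix.trace (F w)) z = Matrix.trace (mwd c F z) := by
  simp only [Matrix.trace, Matrix.diag]
  exact wd_sum _ (fun j w => F w j j) fun j _ => hF.diff j j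

lemma mwd_inv (hF : MC 1 F z) (h : (F z).det ≠ 0) :
    mwd c (fun w => (F w)⁻¹) z = -((F z)⁻¹ * mwd c F z * (F z)⁻¹) := by
  have he : (fun w => (F w)⁻¹ * F w) =ᶠ[𝓝 z] fun _ => 1 := by
    filter_upwards [hF.det.continuousAt.eventually_ne h] with w hw
    exact Matrix.nonsing_inv_mul _ (Ne.isUnit hw)
  have h1 := mwd_mul (c := c) (hF.inv h) hF
  rw [mwd_congr he, mwd_const] at h1
  have h2 : F z * (F z)⁻¹ = 1 := Matrix.mul_nonsing_inv _ (Ne.isUnit h)
  have h3 : mwd c (fun w => (F w)⁻¹) z * F z = -((F z)⁻¹ * mwd c F z) :=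
    eq_neg_of_add_eq_zero_left h1.symm
  calc mwd c (fun w => (F w)⁻¹) z = mwd c (fun w => (F w)⁻¹) z * F z * (F z)⁻¹ := by
        rw [Matrix.mul_assoc, h2, Matrix.mul_one]
    _ = _ := by rw [h3, Matrix.neg_mul]

lemma mwd_adj {H N : ℂ → Matrix (Fin n) (Fin n) ℂ} (hH : MC 1 H z) (hN : MC 1 N z)
    (h : (H z).det ≠ 0) :
    mwd c (fun w => adj (H w) (N w)) z
      = -((H z)⁻¹ * mwd c H z * adj (H z) (N z))
        + adj (H z) (mwd ((starRingEnd ℂ) c) N z) + (H z)⁻¹ * (N z)ᴴ * mwd c H z := by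
  unfold adj
  rw [mwd_mul ((hH.inv h).mul hN.ct) hH, mwd_mul (hH.inv h) hN.ct, mwd_inv hH h, mwd_ct hN]
  noncomm_ring

lemma MC.adj {H N : ℂ → Matrix (Fin n) (Fin n) ℂ} (hH : MC k H z) (hN : MC k N z)
    (h : (H z).det ≠ 0) : MC k (fun w => adj (H w) (N w)) z :=
  ((hH.inv h).mul hN.ct).mul hH

lemma adj_mul {H : Matrix (Fin n) (Fin n) ℂ} (h : H.det ≠ 0) (X Y : Matrix (Fin n) (Fin n) ℂ) :
    adj H (X * Y) = adj H Y * adj H X := by
  have h2 : H * H⁻¹ = 1 := Matrix.mul_nonsing_inv _ (Ne.isUnit h)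
  unfold adj
  rw [Matrix.conjTranspose_mul]
  calc H⁻¹ * (Yᴴ * Xᴴ) * H = H⁻¹ * Yᴴ * (H * H⁻¹) * Xᴴ * H := by rw [h2]; noncomm_ring
    _ = _ := by noncomm_ring

lemma adj_sub (H X Y : Matrix (Fin n) (Fin n) ℂ) : adj H (X - Y) = adj H X - adj H Y := by
  unfold adj; rw [Matrix.conjTranspose_sub]; noncomm_ring

lemma adj_add (H X Y : Matrix (Fin n) (Fin n) ℂ) : adj H (X + Y) = adj H X + adj H Y := by
  unfold adj; rw [Matrix.conjTranspose_add]; noncomm_ring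

lemma adj_adj {H : Matrix (Fin n) (Fin n) ℂ} (h : H.det ≠ 0) (hh : Hᴴ = H)
    (X : Matrix (Fin n) (Fin n) ℂ) : adj H (adj H X) = X := by
  have h1 : H⁻¹ * H = 1 := Matrix.nonsing_inv_mul _ (Ne.isUnit h)
  unfold adj
  rw [Matrix.conjTranspose_mul, Matrix.conjTranspose_mul, Matrix.conjTranspose_nonsing_inv, hh,
    Matrix.conjTranspose_conjTranspose]
  calc H⁻¹ * (H * (X * H⁻¹)) * H = (H⁻¹ * H) * X * (H⁻¹ * H) := by noncomm_ring
    _ = X := by rw [h1]; simp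

lemma trace_adj {H : Matrix (Fin n) (Fin n) ℂ} (h : H.det ≠ 0) (X : Matrix (Fin n) (Fin n) ℂ) :
    Matrix.trace (adj H X) = star (Matrix.trace X) := by
  have h2 : H * H⁻¹ = 1 := Matrix.mul_nonsing_inv _ (Ne.isUnit h)
  unfold adj
  rw [Matrix.trace_mul_comm, ← Matrix.mul_assoc, h2, Matrix.one_mul, Matrix.trace_conjTranspose]

lemma ofReal_nsq {H : Matrix (Fin n) (Fin n) ℂ} (h : H.det ≠ 0) (hh : Hᴴ = H)
    (X : Matrix (Fin n) (Fin n) ℂ) : ((nsq H X : ℝ) : ℂ) = Matrix.trace (X * adj H X) := by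
  have h1 : star (Matrix.trace (X * adj H X)) = Matrix.trace (X * adj H X) := by
    rw [← trace_adj h, adj_mul h, adj_adj h hh]
  unfold nsq
  exact Complex.conj_eq_iff_re.1 h1

lemma holo_MC {U : Set ℂ} (hU : IsOpen U) {N : ℂ → Matrix (Fin n) (Fin n) ℂ}
    (hN : ∀ a b, DifferentiableOn ℂ (fun w => N w a b) U) (hz : z ∈ U) : MC 2 N z := by
  intro a b
  have : AnalyticAt ℂ (fun w => N w a b) z := (hN a b).analyticAt (hU.mem_nhds hz)
  exact (this.contDiffAt (n := 2)).restrict_scalars ℝ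

lemma holo_mdzb {U : Set ℂ} (hU : IsOpen U) {N : ℂ → Matrix (Fin n) (Fin n) ℂ}
    (hN : ∀ a b, DifferentiableOn ℂ (fun w => N w a b) U) (hz : z ∈ U) :
    mwd Complex.I N z = 0 := by
  ext a b
  exact dzb_holo ((hN a b).differentiableAt (hU.mem_nhds hz))

lemma holo_mdz {U : Set ℂ} (hU : IsOpen U) {N : ℂ → Matrix (Fin n) (Fin n) ℂ}
    (hN : ∀ a b, DifferentiableOn ℂ (fun w => N w a b) U) :
    ∀ a b, DifferentiableOn ℂ (fun w => mwd (-Complex.I) N w a b) U := by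
  intro a b
  refine ((hN a b).deriv hU).congr fun w hw => ?_
  have := dz_holo ((hN a b).differentiableAt (hU.mem_nhds hw)).hasDerivAt
  rw [dz_eq] at this
  exact this

theorem boch (hR : RedStmt) (hF : FroStmt) : BochStmt := by
  intro n U A H N hU hH hN z hz
  obtain ⟨hC, hP, hE⟩ := hH
  have hH2 : ∀ w ∈ U, MC 2 H w := fun w hw a b => (hC a b).contDiffAt (hU.mem_nhds hw)
  have hN2 : ∀ w ∈ U, MC 2 N w := fun w hw => holo_MC hU hN hw
  have hdet : ∀ w ∈ U, (H w).det ≠ 0 := fun w hw => (hR n _ (hP w hw)).1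
  have hherm : ∀ w ∈ U, (H w)ᴴ = H w := fun w hw => (hP w hw).1
  have hT2 : ContDiffAt ℝ 2 (fun w => Matrix.trace (N w * adj (H w) (N w))) z :=
    ((hN2 z hz).mul ((hH2 z hz).adj (hN2 z hz) (hdet z hz))).trace
  refine ⟨Complex.reCLM.contDiff.contDiffAt.comp z hT2, fun hc => ?_⟩
  set Γ : ℂ → Matrix (Fin n) (Fin n) ℂ := fun w => (H w)⁻¹ * mwd (-Complex.I) H w with hΓ
  set M : ℂ → Matrix (Fin n) (Fin n) ℂ :=
    fun w => mwd (-Complex.I) N w + (Γ w * N w - N w * Γ w) with hM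
  have hI : (starRingEnd ℂ) (-Complex.I) = Complex.I := by simp
  have hI' : (starRingEnd ℂ) Complex.I = -Complex.I := by simp
  have e1 : (wd (-Complex.I) fun w => Matrix.trace (N w * adj (H w) (N w))) =ᶠ[𝓝 z]
      fun w => Matrix.trace (M w * adj (H w) (N w)) := by
    filter_upwards [hU.mem_nhds hz] with w hw
    have h1 := (hH2 w hw).one
    have h2 := (hN2 w hw).one
    have h3 : H w * (H w)⁻¹ = 1 := Matrix.mul_nonsing_inv _ (Ne.isUnit (hdet w hw))
    rw [wd_trace (h2.mul (h1.adj h2 (hdet w hw))), mwd_mul h2 (h1.adj h2 (hdet w hw)),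
      mwd_adj h1 h2 (hdet w hw), hI, holo_mdzb hU hN hw]
    have h4 : (H w)⁻¹ * (N w)ᴴ * mwd (-Complex.I) H w = adj (H w) (N w) * Γ w := by
      simp only [hΓ, adj]
      calc (H w)⁻¹ * (N w)ᴴ * mwd (-Complex.I) H w
          = (H w)⁻¹ * (N w)ᴴ * (H w * (H w)⁻¹) * mwd (-Complex.I) H w := by rw [h3]; simp
        _ = _ := by noncomm_ring
    have h5 : adj (H w) 0 = 0 := by simp [adj]
    rw [h4, h5]
    simp only [hM, Matrix.add_mul, Matrix.sub_mul, Matrix.mul_add, Matrix.mul_neg, add_zero,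
      Matrix.trace_add, Matrix.trace_sub, Matrix.trace_neg]
    have h6 : Matrix.trace (N w * (adj (H w) (N w) * Γ w))
        = Matrix.trace (Γ w * N w * adj (H w) (N w)) := by
      rw [← Matrix.mul_assoc (N w), Matrix.trace_mul_comm _ (Γ w), ← Matrix.mul_assoc]
    rw [h6]
    simp only [hΓ, Matrix.mul_assoc]
    ring
  have h1 := (hH2 z hz).one
  have h2 := (hN2 z hz).one
  have hd := hdet z hz
  have hΓ1 : MC 1 Γ z := (h1.inv hd).mul (hH2 z hz).mwd
  have hN'1 : MC 1 (mwd (-Complex.I) N) z := (hN2 z hz).mwd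
  have hM1 : MC 1 M z := hN'1.add ((hΓ1.mul h2).sub (h2.mul hΓ1))
  have hΓb : mwd Complex.I Γ z = A z * adj (H z) (A z) - adj (H z) (A z) * A z := by
    have := hE z hz
    rwa [mdzb_eq, mdz_eq] at this
  have hMb : mwd Complex.I M z = mwd Complex.I Γ z * N z - N z * mwd Complex.I Γ z := by
    rw [hM, mwd_add hN'1 ((hΓ1.mul h2).sub (h2.mul hΓ1)), mwd_sub (hΓ1.mul h2) (h2.mul hΓ1),
      mwd_mul hΓ1 h2, mwd_mul h2 hΓ1, holo_mdzb hU hN hz, holo_mdzb hU (holo_mdz hU hN) hz]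
    simp
  have hHb : (mwd (-Complex.I) H z)ᴴ = mwd Complex.I H z := by
    have he : (fun w => (H w)ᴴ) =ᶠ[𝓝 z] H := by
      filter_upwards [hU.mem_nhds hz] with w hw using hherm w hw
    rw [← mwd_congr (c := Complex.I) he, mwd_ct (c := Complex.I) h1, hI']
  have h3 : H z * (H z)⁻¹ = 1 := Matrix.mul_nonsing_inv _ (Ne.isUnit hd)
  have h3' : (H z)⁻¹ * H z = 1 := Matrix.nonsing_inv_mul _ (Ne.isUnit hd)
  have hΓa : adj (H z) (Γ z) = (H z)⁻¹ * mwd Complex.I H z := by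
    simp only [hΓ, adj]
    rw [Matrix.conjTranspose_mul, hHb, Matrix.conjTranspose_nonsing_inv, hherm z hz]
    calc (H z)⁻¹ * (mwd Complex.I H z * (H z)⁻¹) * H z
        = (H z)⁻¹ * mwd Complex.I H z * ((H z)⁻¹ * H z) := by noncomm_ring
      _ = _ := by rw [h3', Matrix.mul_one]
  have hab : mwd Complex.I (fun w => adj (H w) (N w)) z = adj (H z) (M z) := by
    rw [mwd_adj h1 h2 hd, hI']
    simp only [hM]
    rw [adj_add, adj_sub, adj_mul hd (Γ z), adj_mul hd _ (Γ z), hΓa]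
    have h4 : (H z)⁻¹ * (N z)ᴴ * mwd Complex.I H z
        = adj (H z) (N z) * ((H z)⁻¹ * mwd Complex.I H z) := by
      simp only [adj]
      calc (H z)⁻¹ * (N z)ᴴ * mwd Complex.I H z
          = (H z)⁻¹ * (N z)ᴴ * (H z * (H z)⁻¹) * mwd Complex.I H z := by rw [h3]; simp
        _ = _ := by noncomm_ring
    rw [h4]
    abel
  have e0 : (fun w => ((nsq (H w) (N w) : ℝ) : ℂ)) =ᶠ[𝓝 z]
      fun w => Matrix.trace (N w * adj (H w) (N w)) := by
    filter_upwards [hU.mem_nhds hz] with w hw using ofReal_nsq (hdet w hw) (hherm w hw) _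
  rw [LL_eq_of_eventuallyEq e0, dzb_eq, dz_eq, wd_congr e1, wd_trace (hM1.mul (h1.adj h2 hd)),
    mwd_mul hM1 (h1.adj h2 hd), hab, hMb, hΓb, Matrix.trace_add, Complex.add_re]
  have hnn : 0 ≤ (Matrix.trace (M z * adj (H z) (M z))).re := by
    obtain ⟨-, φ, hφ⟩ := hR n _ (hP z hz)
    have := (hφ (M z)).2
    unfold nsq at this
    rw [this]
    exact (sq_nonneg _).trans ((hF n).1 _).1
  set B := adj (H z) (A z) with hB
  have hkey : nsq (H z) (B * N z - N z * B)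
      = (Matrix.trace (((A z * B - B * A z) * N z - N z * (A z * B - B * A z))
          * adj (H z) (N z))).re := by
    unfold nsq
    congr 1
    rw [adj_sub, adj_mul hd, adj_mul hd, hB, adj_adj hd (hherm z hz), ← hB]
    set N' := adj (H z) (N z)
    have h7 : (A z * B - B * A z) * N z - N z * (A z * B - B * A z)
        = A z * (B * N z - N z * B) - (B * N z - N z * B) * A z := by
      have h8 : B * A z * N z = B * N z * A z := by
        rw [Matrix.mul_assoc, ← hc, Matrix.mul_assoc]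
      have h9 : N z * (A z * B) = A z * (N z * B) := by
        rw [← Matrix.mul_assoc, hc, Matrix.mul_assoc]
      simp only [Matrix.sub_mul, Matrix.mul_sub, h8, h9, Matrix.mul_assoc]
      abel
    rw [h7]
    generalize B * N z - N z * B = X
    rw [Matrix.mul_sub, Matrix.sub_mul, Matrix.trace_sub, Matrix.trace_sub,
      Matrix.mul_assoc (A z) X N', Matrix.trace_mul_comm (A z), Matrix.mul_assoc X (A z),
      Matrix.mul_assoc X N']
  rw [hkey]
  linarith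

end Pool.Agent.MP_4f0bc7_gt

end

section

namespace Pool.Agent.MP_4f0bc7_gt

open Filter Topology Metric

lemma ofReal_normSq_KO (w : ℂ) : ((‖w‖ ^ 2 : ℝ) : ℂ) = w * (starRingEnd ℂ) w := by
  rw [Complex.mul_conj, Complex.normSq_eq_norm_sq]

lemma contDiff_sq_KO (z₀ : ℂ) : ContDiff ℝ 2 (fun w : ℂ => ‖w - z₀‖ ^ 2) :=
  (contDiff_id.sub contDiff_const).norm_sq ℝ

lemma diff_lin_KO (z₀ w : ℂ) : DifferentiableAt ℝ (fun w : ℂ => w - z₀) w :=
  differentiableAt_id.sub_const z₀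

lemma diff_clin_KO (z₀ w : ℂ) : DifferentiableAt ℝ (fun w : ℂ => (starRingEnd ℂ) (w - z₀)) w :=
  differentiableAt_conj (diff_lin_KO z₀ w)

lemma dz_lin_KO (z₀ w : ℂ) : dz (fun w : ℂ => w - z₀) w = 1 :=
  dz_holo ((hasDerivAt_id w).sub_const z₀)

lemma dzb_lin_KO (z₀ w : ℂ) : dzb (fun w : ℂ => w - z₀) w = 0 :=
  dzb_holo (differentiableAt_id.sub_const z₀)

lemma dz_clin_KO (z₀ w : ℂ) : dz (fun w : ℂ => (starRingEnd ℂ) (w - z₀)) w = 0 := by
  rw [dz_conj (diff_lin_KO z₀ w), dzb_lin_KO]; simp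

lemma dzb_clin_KO (z₀ w : ℂ) : dzb (fun w : ℂ => (starRingEnd ℂ) (w - z₀)) w = 1 := by
  rw [dzb_conj (diff_lin_KO z₀ w), dz_lin_KO]; simp

/-- the complex form of the squared distance -/
noncomputable def sqd_KO (z₀ w : ℂ) : ℂ := (w - z₀) * (starRingEnd ℂ) (w - z₀)

lemma diff_sqd_KO (z₀ w : ℂ) : DifferentiableAt ℝ (sqd_KO z₀) w :=
  (diff_lin_KO z₀ w).mul (diff_clin_KO z₀ w)

lemma dz_sqd_KO (z₀ w : ℂ) : dz (sqd_KO z₀) w = (starRingEnd ℂ) (w - z₀) := by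
  have := wd_mul (c := -Complex.I) (diff_lin_KO z₀ w) (diff_clin_KO z₀ w)
  rw [← dz_eq, ← dz_eq, ← dz_eq, dz_lin_KO, dz_clin_KO, one_mul, mul_zero, add_zero] at this
  exact this

lemma dzb_sqd_KO (z₀ w : ℂ) : dzb (sqd_KO z₀) w = w - z₀ := by
  have := wd_mul (c := Complex.I) (diff_lin_KO z₀ w) (diff_clin_KO z₀ w)
  rw [← dzb_eq, ← dzb_eq, ← dzb_eq, dzb_lin_KO, dzb_clin_KO, zero_mul, mul_one, zero_add] at this
  exact this

/-- mixed derivative of a radial function -/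
lemma radial_KO (z₀ w : ℂ) (g g₁ : ℂ → ℂ) (g₂ : ℂ)
    (h1 : ∀ᶠ s in 𝓝 (sqd_KO z₀ w), HasDerivAt g (g₁ s) s)
    (h2 : HasDerivAt g₁ g₂ (sqd_KO z₀ w)) :
    dzb (dz fun v => g (sqd_KO z₀ v)) w = g₁ (sqd_KO z₀ w) + g₂ * sqd_KO z₀ w := by
  have hc : Tendsto (sqd_KO z₀) (𝓝 w) (𝓝 (sqd_KO z₀ w)) := (diff_sqd_KO z₀ w).continuousAt
  have e1 : (dz fun v => g (sqd_KO z₀ v)) =ᶠ[𝓝 w]
      fun v => g₁ (sqd_KO z₀ v) * (starRingEnd ℂ) (v - z₀) := by
    filter_upwards [hc.eventually h1] with v hv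
    rw [dz_eq, wd_comp hv (diff_sqd_KO z₀ v), ← dz_eq, dz_sqd_KO]
  have hd : DifferentiableAt ℝ (fun v => g₁ (sqd_KO z₀ v)) w :=
    (h2.differentiableAt.restrictScalars ℝ).comp w (diff_sqd_KO z₀ w)
  rw [dzb_eq, wd_congr e1, wd_mul hd (diff_clin_KO z₀ w), wd_comp h2 (diff_sqd_KO z₀ w),
    ← dzb_eq, ← dzb_eq, dzb_sqd_KO, dzb_clin_KO]
  simp only [sqd_KO]; ring

lemma LL_barrier_KO (z₀ w : ℂ) (r a : ℝ) (hw : r ^ 2 - ‖w - z₀‖ ^ 2 ≠ 0) :
    LL (fun v => a / (r ^ 2 - ‖v - z₀‖ ^ 2) ^ 2) w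
      = 2 * a / (r ^ 2 - ‖w - z₀‖ ^ 2) ^ 3
        + 6 * a * ‖w - z₀‖ ^ 2 / (r ^ 2 - ‖w - z₀‖ ^ 2) ^ 4 := by
  have hs : ∀ v, sqd_KO z₀ v = ((‖v - z₀‖ ^ 2 : ℝ) : ℂ) := fun v => (ofReal_normSq_KO _).symm
  have hw' : ((r : ℂ) ^ 2 - sqd_KO z₀ w) ≠ 0 := by
    rw [hs]; exact_mod_cast hw
  have hlin : ∀ s : ℂ, HasDerivAt (fun s : ℂ => (r : ℂ) ^ 2 - s) (-1) s := fun s =>
    (hasDerivAt_id s).const_sub _
  have h1 : ∀ᶠ s in 𝓝 (sqd_KO z₀ w), HasDerivAt (fun s : ℂ => (a : ℂ) / ((r : ℂ) ^ 2 - s) ^ 2)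
      (2 * a / ((r : ℂ) ^ 2 - s) ^ 3) s := by
    have : ∀ᶠ s in 𝓝 (sqd_KO z₀ w), (r : ℂ) ^ 2 - s ≠ 0 :=
      (hlin _).continuousAt.eventually_ne hw'
    filter_upwards [this] with s hs
    have := (hasDerivAt_const s (a : ℂ)).fun_div ((hlin s).fun_pow 2) (pow_ne_zero 2 hs)
    refine this.congr_deriv ?_
    field_simp
    norm_num
    ring
  have h2 : HasDerivAt (fun s : ℂ => 2 * (a : ℂ) / ((r : ℂ) ^ 2 - s) ^ 3)
      (6 * a / ((r : ℂ) ^ 2 - sqd_KO z₀ w) ^ 4) (sqd_KO z₀ w) := by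
    have := (hasDerivAt_const (sqd_KO z₀ w) (2 * (a : ℂ))).fun_div ((hlin _).fun_pow 3)
      (pow_ne_zero 3 hw')
    refine this.congr_deriv ?_
    field_simp
    norm_num
    ring
  have e := radial_KO z₀ w _ _ _ h1 h2
  rw [LL_eq_of_eventuallyEq (F := fun v => (a : ℂ) / ((r : ℂ) ^ 2 - sqd_KO z₀ v) ^ 2)
    (Eventually.of_forall fun v => by simp only [hs]; push_cast; rfl), e, hs]
  have : (2 * (a : ℂ) / ((r : ℂ) ^ 2 - ((‖w - z₀‖ ^ 2 : ℝ) : ℂ)) ^ 3
      + 6 * a / ((r : ℂ) ^ 2 - ((‖w - z₀‖ ^ 2 : ℝ) : ℂ)) ^ 4 * ((‖w - z₀‖ ^ 2 : ℝ) : ℂ))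
      = ((2 * a / (r ^ 2 - ‖w - z₀‖ ^ 2) ^ 3
        + 6 * a * ‖w - z₀‖ ^ 2 / (r ^ 2 - ‖w - z₀‖ ^ 2) ^ 4 : ℝ) : ℂ) := by
    push_cast; ring
  rw [this, Complex.ofReal_re]

lemma LL_log_KO (w : ℂ) (hw : w ≠ 0) : LL (fun v => Real.log (‖v‖ ^ 2)) w = 0 := by
  have hs : ∀ v, sqd_KO 0 v = ((‖v‖ ^ 2 : ℝ) : ℂ) := fun v => by
    rw [ofReal_normSq_KO]; simp [sqd_KO]
  have hpos : 0 < ‖w‖ ^ 2 := by positivity
  have hsl : sqd_KO 0 w ∈ Complex.slitPlane := by
    rw [hs]; exact Complex.ofReal_mem_slitPlane.2 hpos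
  have hne : sqd_KO 0 w ≠ 0 := Complex.slitPlane_ne_zero hsl
  have h1 : ∀ᶠ s in 𝓝 (sqd_KO 0 w), HasDerivAt Complex.log (s⁻¹) s := by
    filter_upwards [Complex.isOpen_slitPlane.mem_nhds hsl] with s hs using
      Complex.hasDerivAt_log hs
  have h2 : HasDerivAt (fun s : ℂ => s⁻¹) (-(sqd_KO 0 w ^ 2)⁻¹) (sqd_KO 0 w) := hasDerivAt_inv hne
  have e := radial_KO 0 w _ _ _ h1 h2
  rw [LL_eq_of_eventuallyEq (F := fun v => Complex.log (sqd_KO 0 v))
    (Eventually.of_forall fun v => by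
      simp only [hs]; rw [Complex.ofReal_log (by positivity)]), e]
  have : (sqd_KO 0 w)⁻¹ + -(sqd_KO 0 w ^ 2)⁻¹ * sqd_KO 0 w = 0 := by field_simp; ring
  rw [this]; simp

theorem ko : KOStmt := by
  intro u z₀ r c hr hc hu hL
  by_cases h0 : u z₀ ≤ 0
  · exact h0.trans (by positivity)
  push Not at h0
  set ψ : ℂ → ℝ := fun w => r ^ 2 - ‖w - z₀‖ ^ 2 with hψ
  have hψc : ContDiff ℝ 2 ψ := contDiff_const.sub (contDiff_sq_KO z₀)
  have hcont : ContinuousOn (fun w => ψ w ^ 2 * u w) (closedBall z₀ r) :=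
    (hψc.continuous.continuousOn.pow 2).mul fun w hw => (hu w hw).continuousAt.continuousWithinAt
  obtain ⟨w₁, hw₁, hmax⟩ := (isCompact_closedBall z₀ r).exists_isMaxOn
    ⟨z₀, mem_closedBall_self hr.le⟩ hcont
  set a := ψ w₁ ^ 2 * u w₁ with ha
  have hz : r ^ 4 * u z₀ ≤ a := by
    have := hmax (mem_closedBall_self hr.le)
    simp only [Set.mem_ofPred_eq, hψ, sub_self, norm_zero] at this
    calc r ^ 4 * u z₀ = (r ^ 2 - 0 ^ 2) ^ 2 * u z₀ := by ring
      _ ≤ a := this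
  have ha0 : 0 < a := lt_of_lt_of_le (by positivity) hz
  have hψ1 : ψ w₁ ≠ 0 := by
    intro h; rw [ha, h] at ha0; simp at ha0
  have hu1 : 0 < u w₁ := (mul_pos_iff_of_pos_left (by positivity)).1 ha0
  have hn1 : ‖w₁ - z₀‖ ≤ r := by simpa [dist_eq_norm] using hw₁
  have hlt : ‖w₁ - z₀‖ < r := by
    refine lt_of_le_of_ne hn1 fun h => hψ1 ?_
    simp [hψ, h]
  have hball : w₁ ∈ ball z₀ r := by simpa [dist_eq_norm] using hlt
  have hψpos : ∀ w ∈ ball z₀ r, 0 < ψ w := by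
    intro w hw
    have : ‖w - z₀‖ < r := by simpa [dist_eq_norm] using hw
    have := pow_lt_pow_left₀ this (norm_nonneg _) two_ne_zero
    simp only [hψ]; linarith
  have hφ : ContDiffAt ℝ 2 (fun w => a / ψ w ^ 2) w₁ :=
    contDiffAt_const.div (hψc.contDiffAt.pow 2) (pow_ne_zero 2 hψ1)
  have hloc : IsLocalMax (fun w => u w - a / ψ w ^ 2) w₁ := by
    filter_upwards [isOpen_ball.mem_nhds hball] with w hw
    have h1 : ψ w ^ 2 * u w ≤ a := hmax (ball_subset_closedBall hw)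
    have h2 : u w ≤ a / ψ w ^ 2 := by
      rw [le_div_iff₀ (pow_pos (hψpos w hw) 2)]; linarith
    have h3 : u w₁ = a / ψ w₁ ^ 2 := by rw [ha]; field_simp
    linarith
  have hle := LL_nonpos_of_isLocalMax ((hu w₁ hw₁).sub hφ) hloc
  rw [LL_sub (hu w₁ hw₁) hφ, LL_barrier_KO z₀ w₁ r a hψ1] at hle
  have h4 := hL w₁ hball hu1
  have hp := hψpos w₁ hball
  have h5 : c * u w₁ ^ 2 ≤ 6 * a * r ^ 2 / ψ w₁ ^ 4 := by
    have e : 2 * a / (r ^ 2 - ‖w₁ - z₀‖ ^ 2) ^ 3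
        + 6 * a * ‖w₁ - z₀‖ ^ 2 / (r ^ 2 - ‖w₁ - z₀‖ ^ 2) ^ 4
        = (2 * a * ψ w₁ + 6 * a * ‖w₁ - z₀‖ ^ 2) / ψ w₁ ^ 4 := by
      have : r ^ 2 - ‖w₁ - z₀‖ ^ 2 = ψ w₁ := rfl
      rw [this]; field_simp
    have e2 : (2 * a * ψ w₁ + 6 * a * ‖w₁ - z₀‖ ^ 2) / ψ w₁ ^ 4 ≤ 6 * a * r ^ 2 / ψ w₁ ^ 4 := by
      apply div_le_div_of_nonneg_right _ (by positivity)
      have : ψ w₁ = r ^ 2 - ‖w₁ - z₀‖ ^ 2 := rfl
      nlinarith
    linarith
  have h6 : c * a ≤ 6 * r ^ 2 := by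
    rw [le_div_iff₀ (by positivity)] at h5
    have : c * u w₁ ^ 2 * ψ w₁ ^ 4 = c * a * a := by rw [ha]; ring
    rw [this] at h5
    have h7 : c * a * a ≤ 6 * r ^ 2 * a := by linarith
    exact le_of_mul_le_mul_right h7 ha0
  rw [le_div_iff₀ (by positivity)]
  have h8 : c * (r ^ 4 * u z₀) ≤ 6 * r ^ 2 := (mul_le_mul_of_nonneg_left hz hc.le).trans h6
  have h9 : (u z₀ * (c * r ^ 2)) * r ^ 2 ≤ 6 * r ^ 2 := by linarith
  exact le_of_mul_le_mul_right h9 (by positivity)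

lemma contDiffAt_log_KO (w : ℂ) (hw : w ≠ 0) : ContDiffAt ℝ 2 (fun v : ℂ => Real.log (‖v‖ ^ 2)) w := by
  have h : ContDiffAt ℝ 2 (fun v : ℂ => ‖v‖ ^ 2) w := (contDiff_norm_sq ℝ).contDiffAt
  exact h.log (by positivity)

/-- one-sided barrier estimate -/
lemma side_KO (u : ℂ → ℝ) (B M s : ℝ) (hu : ∀ z : ℂ, z ≠ 0 → ContDiffAt ℝ 2 u z)
    (hB : ∀ z : ℂ, z ≠ 0 → u z ≤ B) (hL : ∀ z : ℂ, z ≠ 0 → 0 < u z → 0 < LL u z)
    (hM0 : 0 ≤ M) (hM : ∀ z : ℂ, ‖z‖ = 1 → u z ≤ M) (hs : s = 1 ∨ s = -1)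
    (z₁ : ℂ) (hz₁ : z₁ ≠ 0) (h1 : 0 ≤ s * Real.log (‖z₁‖ ^ 2)) : u z₁ ≤ M := by
  set ℓ : ℂ → ℝ := fun z => s * Real.log (‖z‖ ^ 2) with hℓ
  have hℓd : ∀ z : ℂ, z ≠ 0 → ContDiffAt ℝ 2 ℓ z := fun z hz =>
    contDiffAt_const.mul (contDiffAt_log_KO z hz)
  have key : ∀ ε : ℝ, 0 < ε → u z₁ ≤ M + ε * ℓ z₁ := by
    intro ε hε
    set T : ℝ := max (ℓ z₁) (|B| / ε) with hT
    have hT0 : 0 ≤ T := le_max_of_le_left h1
    set K : Set ℂ := (closedBall 0 (Real.exp T) ∩ (ball 0 (Real.exp (-T)))ᶜ)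
      ∩ {z | 0 ≤ s * (‖z‖ - 1)} with hK
    have hKc : IsCompact K :=
      ((isCompact_closedBall _ _).inter_right isOpen_ball.isClosed_compl).inter_right
        (isClosed_le continuous_const (continuous_const.mul (continuous_norm.sub continuous_const)))
    have hKne : ∀ z ∈ K, z ≠ 0 := by
      intro z hz h
      apply hz.1.2
      rw [h]; exact mem_ball_self (Real.exp_pos _)
    have hlog : ∀ z : ℂ, z ≠ 0 → ℓ z = 2 * (s * Real.log ‖z‖) := by
      intro z hz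
      simp only [hℓ, Real.log_pow]; push_cast; ring
    have hsign : ∀ z : ℂ, z ≠ 0 → (0 ≤ s * (‖z‖ - 1) ↔ 0 ≤ ℓ z) := by
      intro z hz
      have hp : 0 < ‖z‖ := norm_pos_iff.2 hz
      rw [hlog z hz]
      rcases hs with rfl | rfl
      · constructor
        · intro h
          have := Real.log_nonneg (x := ‖z‖) (by linarith)
          linarith
        · intro h
          have := (Real.log_nonneg_iff hp).1 (by linarith)
          linarith
      · constructor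
        · intro h
          have := Real.log_nonpos hp.le (by linarith)
          linarith
        · intro h
          have := (Real.log_nonpos_iff hp.le).1 (by linarith)
          linarith
    have hz₁K : z₁ ∈ K := by
      have hp : 0 < ‖z₁‖ := norm_pos_iff.2 hz₁
      have h2 : ℓ z₁ ≤ T := le_max_left _ _
      have h3 : 0 ≤ ℓ z₁ := h1
      rw [hlog z₁ hz₁] at h2 h3
      refine ⟨⟨?_, ?_⟩, (hsign z₁ hz₁).2 h1⟩
      · rw [mem_closedBall_zero_iff, ← Real.log_le_iff_le_exp hp]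
        rcases hs with rfl | rfl <;> linarith
      · rw [Set.mem_compl_iff, mem_ball_zero_iff, not_lt, ← Real.le_log_iff_exp_le hp]
        rcases hs with rfl | rfl <;> linarith
    have hcont : ContinuousOn (fun z => u z - ε * ℓ z) K := fun z hz =>
      ((hu z (hKne z hz)).continuousAt.sub
        (continuousAt_const.mul (hℓd z (hKne z hz)).continuousAt)).continuousWithinAt
    obtain ⟨z₂, hz₂, hmax⟩ := hKc.exists_isMaxOn ⟨z₁, hz₁K⟩ hcont
    have hz₂0 := hKne z₂ hz₂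
    have hp2 : 0 < ‖z₂‖ := norm_pos_iff.2 hz₂0
    have hℓ2 : 0 ≤ ℓ z₂ := (hsign z₂ hz₂0).1 hz₂.2
    have hfin : u z₂ - ε * ℓ z₂ ≤ M := by
      by_cases hA : ‖z₂‖ = 1
      · have := hM z₂ hA
        nlinarith
      by_cases hC : T ≤ ℓ z₂
      · have h2 : |B| / ε ≤ ℓ z₂ := (le_max_right _ _).trans hC
        rw [div_le_iff₀ hε] at h2
        have := hB z₂ hz₂0
        have := le_abs_self B
        linarith
      push Not at hC
      have hnb : K ∈ 𝓝 z₂ := by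
        rw [hlog z₂ hz₂0] at hC hℓ2
        refine inter_mem (inter_mem ?_ ?_) ?_
        · apply closedBall_mem_nhds_of_mem
          rw [mem_ball_zero_iff, ← Real.log_lt_iff_lt_exp hp2]
          rcases hs with rfl | rfl <;> linarith
        · have : Real.exp (-T) < ‖z₂‖ := by
            rw [← Real.lt_log_iff_exp_lt hp2]
            rcases hs with rfl | rfl <;> linarith
          filter_upwards [(isOpen_lt continuous_const continuous_norm).mem_nhds this] with z hz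
          rw [Set.mem_compl_iff, mem_ball_zero_iff, not_lt]
          exact le_of_lt hz
        · have h2 : 0 < s * (‖z₂‖ - 1) := by
            refine lt_of_le_of_ne hz₂.2 (mul_ne_zero ?_ (sub_ne_zero.2 hA)).symm
            rcases hs with rfl | rfl <;> norm_num
          filter_upwards [(isOpen_lt continuous_const
            (continuous_const.mul (continuous_norm.sub continuous_const))).mem_nhds h2] with z hz
          exact le_of_lt hz
      have hloc : IsLocalMax (fun z => u z - ε * ℓ z) z₂ := hmax.isLocalMax hnb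
      have hd : ContDiffAt ℝ 2 (fun z => ε * ℓ z) z₂ := contDiffAt_const.mul (hℓd z₂ hz₂0)
      have hle := LL_nonpos_of_isLocalMax ((hu z₂ hz₂0).sub hd) hloc
      rw [LL_sub (hu z₂ hz₂0) hd, LL_const_mul (hℓd z₂ hz₂0), hℓ,
        LL_const_mul (contDiffAt_log_KO z₂ hz₂0), LL_log_KO z₂ hz₂0] at hle
      have hu2 : u z₂ ≤ 0 := by
        by_contra h
        have := hL z₂ hz₂0 (not_le.1 h)
        linarith
      nlinarith
    have : u z₁ - ε * ℓ z₁ ≤ u z₂ - ε * ℓ z₂ := hmax hz₁K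
    linarith
  apply le_of_forall_pos_le_add
  intro δ hδ
  have h3 : 0 ≤ ℓ z₁ := h1
  have := key (δ / (ℓ z₁ + 1)) (by positivity)
  have h4 : δ / (ℓ z₁ + 1) * ℓ z₁ ≤ δ := by
    rw [div_mul_eq_mul_div, div_le_iff₀ (by positivity)]; nlinarith
  linarith

theorem liou : LiouStmt := by
  intro u B hu hB hL
  have hne : ∀ z ∈ sphere (0 : ℂ) 1, z ≠ 0 := by
    intro z hz h; simp [h] at hz
  obtain ⟨z₀, hz₀, hmax⟩ := (isCompact_sphere (0 : ℂ) 1).exists_isMaxOn ⟨1, by simp⟩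
    (fun z hz => (hu z (hne z hz)).continuousAt.continuousWithinAt : ContinuousOn u _)
  have hall : ∀ z : ℂ, z ≠ 0 → u z ≤ max 0 (u z₀) := by
    intro z hz
    have hM : ∀ z : ℂ, ‖z‖ = 1 → u z ≤ max 0 (u z₀) := fun z h =>
      le_max_of_le_right (hmax (by simpa using h))
    rcases le_total 0 (Real.log (‖z‖ ^ 2)) with h | h
    · exact side_KO u B _ 1 hu hB hL (le_max_left _ _) hM (Or.inl rfl) z hz (by linarith)
    · exact side_KO u B _ (-1) hu hB hL (le_max_left _ _) hM (Or.inr rfl) z hz (by linarith)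
  by_cases h0 : u z₀ ≤ 0
  · intro z hz
    simpa [max_eq_left h0] using hall z hz
  push Not at h0
  have hloc : IsLocalMax u z₀ := by
    filter_upwards [isOpen_ne.mem_nhds (hne z₀ hz₀)] with z hz
    simpa [max_eq_right h0.le] using hall z hz
  have h1 := LL_nonpos_of_isLocalMax (hu z₀ (hne z₀ hz₀)) hloc
  have h2 := hL z₀ (hne z₀ hz₀) h0
  linarith

end Pool.Agent.MP_4f0bc7_gt

end

section

namespace Pool.Agent.MP_4f0bc7_gt

open Matrix

section gen
variable {E : Type} [NormedRing E]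

lemma pow_sub_pow_CS (x y : E) (t c : ℝ) (ht : 0 ≤ t) (hx : ‖x‖ ≤ t) (hy : ‖y‖ ≤ t)
    (hc : ‖x - y‖ ≤ c) (k : ℕ) : ‖x ^ (k + 1) - y ^ (k + 1)‖ ≤ (k + 1) * c * t ^ k := by
  have hc0 : 0 ≤ c := (norm_nonneg _).trans hc
  induction k with
  | zero => simpa using hc
  | succ k ih =>
    have e : x ^ (k + 1 + 1) - y ^ (k + 1 + 1)
        = x * (x ^ (k + 1) - y ^ (k + 1)) + (x - y) * y ^ (k + 1) := by
      rw [pow_succ' x (k + 1), pow_succ' y (k + 1)]; noncomm_ring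
    have h1 : ‖y ^ (k + 1)‖ ≤ t ^ (k + 1) :=
      (norm_pow_le' y (Nat.succ_pos k)).trans (pow_le_pow_left₀ (norm_nonneg _) hy _)
    have h2 : ‖x * (x ^ (k + 1) - y ^ (k + 1))‖ ≤ t * ((k + 1) * c * t ^ k) :=
      (norm_mul_le _ _).trans (mul_le_mul hx ih (norm_nonneg _) ht)
    have h3 : ‖(x - y) * y ^ (k + 1)‖ ≤ c * t ^ (k + 1) :=
      (norm_mul_le _ _).trans (mul_le_mul hc h1 (norm_nonneg _) hc0)
    rw [e]
    refine (norm_add_le _ _).trans ((add_le_add h2 h3).trans (le_of_eq ?_))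
    push_cast; ring

lemma diff_CS (s y : E) (t c : ℝ) (ht : 0 ≤ t) (hs : ‖s‖ ≤ t) (hy : ‖y‖ ≤ t)
    (hc : ‖s * y - y * s‖ ≤ c) (k : ℕ) :
    ‖s ^ (k + 1) * y ^ (k + 1) - (s * y) ^ (k + 1)‖ ≤ ((k : ℝ) + 1) ^ 2 * c * t ^ (2 * k) := by
  have hc0 : 0 ≤ c := (norm_nonneg _).trans hc
  induction k with
  | zero => simpa using hc0
  | succ k ih =>
    have e0 : (s * y) ^ (k + 1 + 1) = s * (y * s) ^ (k + 1) * y := by
      rw [pow_succ' (s * y) (k + 1), mul_assoc s y, mul_assoc s, mul_pow_mul]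
    have e : s ^ (k + 1 + 1) * y ^ (k + 1 + 1) - (s * y) ^ (k + 1 + 1)
        = s * ((s ^ (k + 1) * y ^ (k + 1) - (s * y) ^ (k + 1))
          + ((s * y) ^ (k + 1) - (y * s) ^ (k + 1))) * y := by
      rw [e0, pow_succ' s (k + 1), pow_succ y (k + 1)]; noncomm_ring
    have hsy : ‖s * y‖ ≤ t ^ 2 := by
      rw [sq]; exact (norm_mul_le _ _).trans (mul_le_mul hs hy (norm_nonneg _) ht)
    have hys : ‖y * s‖ ≤ t ^ 2 := by
      rw [sq]; exact (norm_mul_le _ _).trans (mul_le_mul hy hs (norm_nonneg _) ht)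
    have h1 := pow_sub_pow_CS (s * y) (y * s) (t ^ 2) c (by positivity) hsy hys hc k
    have h2 := (norm_add_le _ _).trans (add_le_add ih h1)
    rw [e]
    refine (norm_mul_le _ _).trans ((mul_le_mul ((norm_mul_le _ _).trans
      (mul_le_mul hs h2 (norm_nonneg _) ht)) hy (norm_nonneg _) (by positivity)).trans ?_)
    rw [← pow_mul]
    have e2 : t * (((k : ℝ) + 1) ^ 2 * c * t ^ (2 * k) + (k + 1) * c * t ^ (2 * k)) * t
        = (((k : ℝ) + 1) ^ 2 + (k + 1)) * (c * t ^ (2 * (k + 1))) := by ring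
    rw [e2, mul_assoc]
    apply mul_le_mul_of_nonneg_right _ (by positivity)
    push_cast
    have : (0 : ℝ) ≤ k := Nat.cast_nonneg k
    nlinarith

lemma gen_CS [StarRing E] [CStarRing E] (y : E) (j : ℕ) :
    ‖y‖ ^ (2 * 2 ^ j) ≤ ‖y ^ (2 ^ j)‖ ^ 2
      + ((2 : ℝ) ^ j) ^ 2 * ‖star y * y - y * star y‖ * ‖y‖ ^ (2 * 2 ^ j - 2) := by
  obtain ⟨k, hk⟩ : ∃ k, 2 ^ j = k + 1 := Nat.exists_eq_succ_of_ne_zero (by positivity)
  have h1 : ‖(star y * y) ^ (2 ^ j)‖ = ‖y‖ ^ (2 * 2 ^ j) := by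
    rw [(IsSelfAdjoint.star_mul_self y).norm_pow_two_pow, CStarRing.norm_star_mul_self, ← sq,
      ← pow_mul]
  have h2 : ‖star y ^ (2 ^ j) * y ^ (2 ^ j)‖ = ‖y ^ (2 ^ j)‖ ^ 2 := by
    rw [← star_pow, CStarRing.norm_star_mul_self, sq]
  have h3 := diff_CS (star y) y ‖y‖ _ (norm_nonneg _) (norm_star y).le le_rfl le_rfl k
  have h4 : ((2 : ℝ) ^ j) = (k : ℝ) + 1 := by exact_mod_cast hk
  have h5 : 2 * 2 ^ j - 2 = 2 * k := by omega
  rw [h4, h5, ← h1, ← h2, hk]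
  have h6 := norm_sub_norm_le ((star y * y) ^ (k + 1)) (star y ^ (k + 1) * y ^ (k + 1))
  rw [norm_sub_rev] at h6
  linarith

end gen

open scoped Matrix.Norms.L2Operator in
theorem cs : CSStmt := by
  intro n j Y
  exact gen_CS Y j

end Pool.Agent.MP_4f0bc7_gt

end

section

namespace Pool.Agent.MP_4f0bc7_gt

open Matrix
open scoped ComplexOrder MatrixOrder Matrix.Norms.L2Operator

lemma ex_Red {n : ℕ} {H : Matrix (Fin n) (Fin n) ℂ} (h : IsPosHerm H) :
    ∃ S : Matrix (Fin n) (Fin n) ℂ, IsUnit S ∧ H = Sᴴ * S := by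
  have h1 : H.IsHermitian := h.1
  have h2 : H.PosDef := .of_dotProduct_mulVec_pos h1 fun v hv =>
    Complex.pos_iff.2 ⟨h.2 v hv, (h1.im_star_dotProduct_mulVec_self v).symm⟩
  exact CStarAlgebra.isStrictlyPositive_iff_eq_star_mul_self.1 h2.isStrictlyPositive

lemma conj_Red {A : Type} [Ring A] [Algebra ℂ A] (u : Aˣ) :
    ∃ φ : A ≃ₐ[ℂ] A, ∀ Y, φ Y = (u : A) * Y * ((u⁻¹ : Aˣ) : A) :=
  ⟨MulSemiringAction.toAlgEquiv ℂ A (ConjAct.toConjAct u), fun _ => rfl⟩

theorem red : RedStmt := by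
  intro n H h
  obtain ⟨S, ⟨u, hu⟩, rfl⟩ := ex_Red h
  obtain ⟨φ, e⟩ := conj_Red u
  have hd : IsUnit S.det := hu ▸ Matrix.isUnits_det_units u
  have hd' : IsUnit Sᴴ.det := by
    rw [Matrix.det_conjTranspose]
    exact hd.star
  have e1 : ∀ Y, φ (adj (Sᴴ * S) Y) = (φ Y)ᴴ := fun Y => by
    rw [e, e, Matrix.coe_units_inv, hu, adj, Matrix.mul_inv_rev, Matrix.conjTranspose_mul,
      Matrix.conjTranspose_mul, Matrix.conjTranspose_nonsing_inv]
    simp only [Matrix.mul_assoc]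
    rw [Matrix.mul_nonsing_inv_cancel_left _ _ hd, Matrix.mul_nonsing_inv _ hd, Matrix.mul_one]
  refine ⟨by rw [Matrix.det_mul]; exact (hd'.mul hd).ne_zero, φ, fun Y => ⟨e1 Y, ?_⟩⟩
  rw [nsq, fro, ← e1, ← map_mul, e, Matrix.trace_units_conj]

end Pool.Agent.MP_4f0bc7_gt

end

section

namespace Pool.Agent.MP_4f0bc7_gt

open Matrix
open scoped Matrix.Norms.L2Operator

lemma sum_Fro {n : ℕ} (Y : Matrix (Fin n) (Fin n) ℂ) :
    fro Y = ∑ a, ∑ b, ‖Y a b‖ ^ 2 := by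
  unfold fro
  rw [Matrix.trace, Complex.re_sum]
  refine Finset.sum_congr rfl fun a _ => ?_
  rw [Matrix.diag_apply, Matrix.mul_apply, Complex.re_sum]
  refine Finset.sum_congr rfl fun b _ => ?_
  rw [Matrix.conjTranspose_apply, Complex.star_def, Complex.mul_conj, Complex.ofReal_re,
    Complex.normSq_eq_norm_sq]

lemma cs_Fro {n : ℕ} (u v : Fin n → ℂ) :
    ‖∑ c, u c * v c‖ ^ 2 ≤ (∑ c, ‖u c‖ ^ 2) * ∑ c, ‖v c‖ ^ 2 := by
  have h1 : ‖∑ c, u c * v c‖ ≤ ∑ c, ‖u c‖ * ‖v c‖ := by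
    refine (norm_sum_le _ _).trans (le_of_eq ?_)
    exact Finset.sum_congr rfl fun c _ => norm_mul _ _
  exact (pow_le_pow_left₀ (norm_nonneg _) h1 2).trans (Finset.sum_mul_sq_le_sq_mul_sq _ _ _)

lemma nonneg_Fro {n : ℕ} (Y : Matrix (Fin n) (Fin n) ℂ) : 0 ≤ fro Y := by
  rw [sum_Fro]; positivity

lemma lower_Fro {n : ℕ} (Y : Matrix (Fin n) (Fin n) ℂ) : ‖Y‖ ^ 2 ≤ fro Y := by
  have h : ‖Y‖ ≤ Real.sqrt (fro Y) := by
    rw [Matrix.l2_opNorm_def]
    refine ContinuousLinearMap.opNorm_le_bound _ (Real.sqrt_nonneg _) fun x => ?_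
    have h2 : ‖(Matrix.toEuclideanLin.trans LinearMap.toContinuousLinearMap) Y x‖ ^ 2
        ≤ fro Y * ‖x‖ ^ 2 := by
      rw [EuclideanSpace.norm_sq_eq, EuclideanSpace.norm_sq_eq, sum_Fro, Finset.sum_mul]
      refine Finset.sum_le_sum fun a _ => ?_
      exact cs_Fro (fun c => Y a c) (fun c => x c)
    have h3 : (Real.sqrt (fro Y) * ‖x‖) ^ 2 = fro Y * ‖x‖ ^ 2 := by
      rw [mul_pow, Real.sq_sqrt (nonneg_Fro Y)]
    exact (pow_le_pow_iff_left₀ (norm_nonneg _) (by positivity) two_ne_zero).1 (h3 ▸ h2)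
  calc ‖Y‖ ^ 2 ≤ Real.sqrt (fro Y) ^ 2 := pow_le_pow_left₀ (norm_nonneg _) h 2
    _ = fro Y := Real.sq_sqrt (nonneg_Fro Y)

lemma entry_Fro {n : ℕ} (Y : Matrix (Fin n) (Fin n) ℂ) (a b : Fin n) : ‖Y a b‖ ≤ ‖Y‖ := by
  have h := Matrix.l2_opNorm_mulVec Y (EuclideanSpace.single b (1 : ℂ))
  have h1 : ‖(EuclideanSpace.single b (1 : ℂ) : EuclideanSpace ℂ (Fin n))‖ = 1 := by simp
  rw [h1, mul_one] at h
  refine le_trans ?_ h
  refine le_trans (le_of_eq ?_) (PiLp.norm_apply_le _ a)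
  simp

theorem froS : FroStmt := by
  intro n
  refine ⟨fun Y => ⟨lower_Fro Y, ?_⟩, fun a Y => ?_, fun Y Z => ?_⟩
  · rw [sum_Fro]
    calc ∑ a, ∑ b, ‖Y a b‖ ^ 2 ≤ ∑ _a : Fin n, ∑ _b : Fin n, ‖Y‖ ^ 2 :=
          Finset.sum_le_sum fun a _ => Finset.sum_le_sum fun b _ =>
            pow_le_pow_left₀ (norm_nonneg _) (entry_Fro Y a b) 2
      _ = (n : ℝ) ^ 2 * ‖Y‖ ^ 2 := by simp; ring
  · rw [sum_Fro, sum_Fro, Finset.mul_sum]
    refine Finset.sum_congr rfl fun i _ => ?_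
    rw [Finset.mul_sum]
    refine Finset.sum_congr rfl fun j _ => ?_
    rw [Matrix.smul_apply, smul_eq_mul, norm_mul, mul_pow]
  · rw [sum_Fro, sum_Fro, sum_Fro Z, Finset.sum_comm (f := fun a b => ‖Z a b‖ ^ 2),
      Finset.sum_mul_sum]
    refine Finset.sum_le_sum fun a _ => Finset.sum_le_sum fun b _ => ?_
    rw [Matrix.mul_apply]
    exact cs_Fro (fun c => Y a c) (fun c => Z c b)

end Pool.Agent.MP_4f0bc7_gt

end

section

namespace Pool.Agent.MP_4f0bc7_gt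

open Matrix Polynomial

lemma term_Root {n : ℕ} {q : ℕ → ℂ} {K : ℝ} (hK : 0 < K) (hq : ∀ j, 2 ≤ j → j ≤ n → ‖q j‖ ≤ K ^ j)
    {v : Fin n → ℂ} {a : Fin n} (ha : ∀ b : Fin n, ‖v b‖ * K ^ b.val ≤ ‖v a‖ * K ^ a.val)
    (b : Fin n) : ‖hitchin n q a b * v b‖ ≤ K * ‖v a‖ := by
  have hb := ha b
  simp only [hitchin, Matrix.of_apply]
  split_ifs with h1 h2
  · rw [one_mul]
    rw [h1, pow_succ] at hb
    exact le_of_mul_le_mul_right (hb.trans_eq (by ring)) (pow_pos hK b.val)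
  · obtain ⟨k, hk⟩ := Nat.exists_eq_add_of_le h2.le
    have h3 := hq (b.val - a.val + 1) (by omega) (by have := b.isLt; omega)
    rw [hk, pow_add] at hb
    have h4 : ‖v b‖ * K ^ k ≤ ‖v a‖ :=
      le_of_mul_le_mul_right ((le_of_eq (by ring)).trans hb) (pow_pos hK a.val)
    rw [show b.val - a.val + 1 = k + 1 by omega] at h3 ⊢
    rw [norm_mul]
    calc ‖q (k + 1)‖ * ‖v b‖ ≤ K ^ (k + 1) * ‖v b‖ :=
          mul_le_mul_of_nonneg_right h3 (norm_nonneg _)
      _ = K * (‖v b‖ * K ^ k) := by ring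
      _ ≤ K * ‖v a‖ := mul_le_mul_of_nonneg_left h4 hK.le
  · rw [zero_mul, norm_zero]
    positivity

theorem rootS : RootStmt := by
  intro n q K hK hq l hl
  rw [IsRoot.def, Matrix.eval_charpoly] at hl
  obtain ⟨v, hv, h0⟩ := Matrix.exists_mulVec_eq_zero_iff.2 hl
  obtain ⟨c, hc⟩ := Function.ne_iff.1 hv
  obtain ⟨a, -, ha⟩ := Finset.exists_max_image Finset.univ (fun b : Fin n => ‖v b‖ * K ^ b.val)
    ⟨c, Finset.mem_univ c⟩
  have ha' : ∀ b : Fin n, ‖v b‖ * K ^ b.val ≤ ‖v a‖ * K ^ a.val := fun b => ha b (Finset.mem_univ b)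
  have hp : 0 < ‖v a‖ :=
    (mul_pos_iff_of_pos_right (pow_pos hK _)).1
      ((mul_pos (norm_pos_iff.2 hc) (pow_pos hK _)).trans_le (ha' c))
  have e : l * v a = ∑ b, hitchin n q a b * v b := by
    have := congrFun h0 a
    rw [Matrix.sub_mulVec, Pi.sub_apply, Matrix.scalar_apply, Matrix.mulVec_diagonal,
      Pi.zero_apply, sub_eq_zero] at this
    exact this
  have h1 : ‖l‖ * ‖v a‖ ≤ n * K * ‖v a‖ := by
    rw [← norm_mul, e]
    refine (norm_sum_le _ _).trans ((Finset.sum_le_sum fun b _ => term_Root hK hq ha' b).trans ?_)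
    simp [mul_assoc]
  exact le_of_mul_le_mul_right h1 hp

end Pool.Agent.MP_4f0bc7_gt

end

section

namespace Pool.Agent.MP_4f0bc7_gt

open Matrix Polynomial

lemma up_Poly (p : ℂ[X]) (N : ℕ) (h : p.natDegree ≤ N) : ∃ C : ℝ, 0 < C ∧
    ∀ (w : ℂ) (T : ℝ), 1 ≤ T → ‖w‖ ≤ T → ‖p.eval w‖ ≤ C * T ^ N := by
  have h0 : 0 ≤ ∑ i ∈ Finset.range (N + 1), ‖p.coeff i‖ := Finset.sum_nonneg fun _ _ => norm_nonneg _
  refine ⟨∑ i ∈ Finset.range (N + 1), ‖p.coeff i‖ + 1, by linarith, fun w T hT hw => ?_⟩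
  have h1 : 0 ≤ T ^ N := by positivity
  rw [eval_eq_sum_range' (Nat.lt_succ_of_le h), add_mul, Finset.sum_mul]
  refine (norm_sum_le _ _).trans (le_trans (Finset.sum_le_sum fun i hi => ?_) (le_add_of_nonneg_right
    (by linarith)))
  rw [norm_mul, norm_pow]
  exact mul_le_mul_of_nonneg_left ((pow_le_pow_left₀ (norm_nonneg _) hw i).trans
    (pow_le_pow_right₀ hT (Nat.lt_succ_iff.1 (Finset.mem_range.1 hi)))) (norm_nonneg _)

theorem polyS : PolyStmt := by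
  refine ⟨up_Poly, fun p hp => ?_⟩
  have hl : 0 < ‖p.leadingCoeff‖ := norm_pos_iff.2 (leadingCoeff_ne_zero.2 hp)
  rcases Nat.eq_zero_or_pos p.natDegree with h0 | h0
  · refine ⟨‖p.leadingCoeff‖, 1, hl, le_rfl, fun w _ => ?_⟩
    rw [leadingCoeff, h0, pow_zero, mul_one]
    conv_rhs => rw [eq_C_of_natDegree_eq_zero h0, eval_C]
  obtain ⟨C, hC, hb⟩ := up_Poly p.eraseLead _ (eraseLead_natDegree_le p)
  refine ⟨‖p.leadingCoeff‖ / 2, max 1 (2 * C / ‖p.leadingCoeff‖), by positivity, le_max_left _ _,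
    fun w hw => ?_⟩
  have h1 := hb w ‖w‖ ((le_max_left _ _).trans hw) le_rfl
  have h2 : 2 * C ≤ ‖w‖ * ‖p.leadingCoeff‖ := (div_le_iff₀ hl).1 ((le_max_right _ _).trans hw)
  have h3 : p.leadingCoeff * w ^ p.natDegree = p.eval w - p.eraseLead.eval w := by
    have := congrArg (eval w) (eraseLead_add_C_mul_X_pow p)
    rw [eval_add, eval_mul, eval_C, eval_pow, eval_X] at this
    rw [← this]
    ring
  have h4 : ‖p.leadingCoeff‖ * ‖w‖ ^ p.natDegree ≤ ‖p.eval w‖ + ‖p.eraseLead.eval w‖ := by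
    rw [← norm_pow, ← norm_mul, h3]
    exact norm_sub_le _ _
  obtain ⟨e, he⟩ := Nat.exists_eq_add_of_le' h0
  rw [he] at h1 h4 ⊢
  rw [Nat.add_sub_cancel] at h1
  rw [pow_succ] at h4 ⊢
  have h5 := mul_le_mul_of_nonneg_right h2 (pow_nonneg (norm_nonneg w) e)
  linarith

end Pool.Agent.MP_4f0bc7_gt

end

section

namespace Pool.Agent.MP_4f0bc7_gt

open Matrix Polynomial

lemma ent_Scale {R : Type} [CommRing R] (n : ℕ) (c : ℕ → R) (s : R) (a b : Fin n) :
    s ^ a.val * hitchin n (fun j => c j * s ^ j) a b = s * (hitchin n c a b * s ^ b.val) := by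
  simp only [hitchin, Matrix.of_apply]
  split_ifs with h1 h2
  · rw [h1]
    ring
  · obtain ⟨k, hk⟩ := Nat.exists_eq_add_of_le h2.le
    rw [hk, Nat.add_sub_cancel_left]
    ring
  · ring

lemma conj_Scale (n : ℕ) (c : ℕ → ℂ) (s : ℂ) (L : List ℂ) :
    Matrix.diagonal (fun a : Fin n => s ^ a.val) *
      lp (hitchin n fun j => c j * s ^ j) (L.map fun l => l * s) =
      s ^ L.length • (lp (hitchin n c) L * Matrix.diagonal fun a : Fin n => s ^ a.val) := by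
  induction L with
  | nil => simp
  | cons l L ih =>
    have e : Matrix.diagonal (fun a : Fin n => s ^ a.val) * ((hitchin n fun j => c j * s ^ j) -
        (l * s) • (1 : Matrix (Fin n) (Fin n) ℂ)) = s • ((hitchin n c - l • (1 : Matrix (Fin n)
          (Fin n) ℂ)) * Matrix.diagonal fun a : Fin n => s ^ a.val) := by
      have e1 : Matrix.diagonal (fun a : Fin n => s ^ a.val) * (hitchin n fun j => c j * s ^ j) =
          s • (hitchin n c * Matrix.diagonal fun a : Fin n => s ^ a.val) := by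
        ext a b
        rw [Matrix.diagonal_mul, Matrix.smul_apply, Matrix.mul_diagonal, ent_Scale, smul_eq_mul]
      rw [Matrix.mul_sub, e1, Matrix.sub_mul, smul_sub, Matrix.mul_smul, Matrix.smul_mul,
        Matrix.mul_one, Matrix.one_mul, smul_smul, mul_comm s l]
    rw [List.map_cons, lp_cons, lp_cons, ← Matrix.mul_assoc, e, Matrix.smul_mul, Matrix.mul_assoc,
      ih, Matrix.mul_smul, smul_smul, List.length_cons, pow_succ', Matrix.mul_assoc]

theorem scale1 : Scale1Stmt := by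
  intro n c s L hs h
  have e := conj_Scale n c s L
  rw [h, Matrix.zero_mul, smul_zero] at e
  ext a b
  have := congrFun (congrFun e a) b
  rw [Matrix.diagonal_mul] at this
  exact (mul_eq_zero.1 this).resolve_left (pow_ne_zero _ hs)

lemma ch_Scale {R : Type} [CommRing R] [IsDomain R] (n : ℕ) (c : ℕ → R) {s : R} (hs : s ≠ 0) :
    (hitchin n fun j => c j * s ^ j).charpoly.comp (C s * X) =
      C s ^ n * (hitchin n c).charpoly := by
  have e : Matrix.diagonal (fun a : Fin n => C s ^ a.val) * (compRingHom (C s * X)).mapMatrix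
      (hitchin n fun j => c j * s ^ j).charmatrix =
      C s • ((hitchin n c).charmatrix * Matrix.diagonal fun a : Fin n => C s ^ a.val) := by
    refine Matrix.ext fun a b => ?_
    have h := congrArg C (ent_Scale n c s a b)
    simp only [map_mul, map_pow] at h
    rw [Matrix.diagonal_mul, Matrix.smul_apply, Matrix.mul_diagonal, smul_eq_mul,
      RingHom.mapMatrix_apply, Matrix.map_apply, coe_compRingHom_apply]
    rcases eq_or_ne a b with rfl | hab
    · rw [charmatrix_apply_eq, charmatrix_apply_eq, sub_comp, X_comp, C_comp]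
      linear_combination -h
    · rw [charmatrix_apply_ne _ _ _ hab, charmatrix_apply_ne _ _ _ hab, neg_comp, C_comp]
      linear_combination -h
  have d := congrArg Matrix.det e
  rw [Matrix.det_mul, Matrix.det_smul, Matrix.det_mul, ← RingHom.map_det, Fintype.card_fin,
    coe_compRingHom_apply, mul_comm, ← mul_assoc] at d
  refine mul_right_cancel₀ ?_ d
  rw [Matrix.det_diagonal]
  exact Finset.prod_ne_zero_iff.2 fun a _ => pow_ne_zero _ (C_ne_zero.2 hs)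

lemma pr_Scale (L : List ℂ) (f : ℂ[X]) :
    (L.map fun l => (X : ℂ[X][X]) - C (C l * f)).prod.comp (C f * X) =
      C f ^ L.length * (L.map fun l => (X : ℂ[X]) - C l).prod.map C := by
  induction L with
  | nil => simp
  | cons l L ih =>
    simp only [List.map_cons, List.prod_cons, mul_comp, ih, sub_comp, X_comp, C_comp,
      Polynomial.map_mul, Polynomial.map_sub, map_X, map_C, List.length_cons]
    rw [map_mul]
    ring

theorem scale2 : Scale2Stmt := by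
  intro n c L f hf h
  have hl : L.length = n := by
    have := congrArg natDegree h
    rw [charpoly_natDegree_eq_dim, Fintype.card_fin, ← Multiset.prod_coe, ← Multiset.map_coe,
      natDegree_multiset_prod_X_sub_C_eq_card, Multiset.coe_card] at this
    exact this.symm
  have e : (hitchin n fun j => C (c j)) = (hitchin n c).map (C : ℂ →+* ℂ[X]) := by
    refine Matrix.ext fun a b => ?_
    simp only [hitchin, Matrix.of_apply, Matrix.map_apply]
    split_ifs <;> simp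
  have e1 := ch_Scale n (fun j => C (c j)) hf
  rw [e, Matrix.charpoly_map, h, ← hl, ← pr_Scale, hl] at e1
  refine Polynomial.ext fun k => ?_
  have := congrArg (fun p => coeff p k) e1
  simp only [comp_C_mul_X_coeff] at this
  exact mul_right_cancel₀ (pow_ne_zero k hf) this

end Pool.Agent.MP_4f0bc7_gt

end

section

namespace Pool.Agent.MP_4f0bc7_gt

open Matrix Polynomial

/-- the characteristic polynomials by recursion -/
noncomputable def u_ExCh (c : ℕ → ℂ) : ℕ → ℂ[X]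
  | 0 => 1
  | s + 1 => X * u_ExCh c s - ∑ i ∈ Finset.range s, C (c (i + 2)) * u_ExCh c (s - 1 - i)
  decreasing_by all_goals omega

lemma top_ExCh (c : ℕ → ℂ) (s : ℕ) : (∀ k, s < k → (u_ExCh c s).coeff k = 0) ∧
    (u_ExCh c s).coeff s = 1 ∧ ∀ k, k + 1 = s → (u_ExCh c s).coeff k = 0 := by
  induction s using Nat.strong_induction_on with
  | _ s ih =>
    rcases s with _ | s
    · rw [u_ExCh]
      exact ⟨fun k hk => by rw [coeff_one, if_neg hk.ne'], by simp, fun k hk => by omega⟩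
    have e : ∀ k, s ≤ k → (u_ExCh c (s + 1)).coeff k = (X * u_ExCh c s).coeff k := fun k hk => by
      rw [u_ExCh, coeff_sub, finsetSum_coeff, Finset.sum_eq_zero, sub_zero]
      intro i hi
      have := Finset.mem_range.1 hi
      rw [coeff_C_mul, (ih (s - 1 - i) (by omega)).1 k (by omega), mul_zero]
    obtain ⟨h1, h2, h3⟩ := ih s (by omega)
    refine ⟨fun k hk => ?_, by rw [e _ (by omega), coeff_X_mul, h2], fun k hk => ?_⟩
    · obtain ⟨k, rfl⟩ := Nat.exists_eq_add_of_le' (show 1 ≤ k by omega)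
      rw [e _ (by omega), coeff_X_mul, h1 k (by omega)]
    · rw [e _ (by omega)]
      rcases k with _ | k
      · simp
      · rw [coeff_X_mul, h3 k (by omega)]

lemma upd_ExCh (c : ℕ → ℂ) (J : ℕ) (d : ℂ) (s : ℕ) : ∀ k, s ≤ k + (J + 2) →
    (u_ExCh (Function.update c (J + 2) (c (J + 2) + d)) s).coeff k =
      (u_ExCh c s).coeff k - if s = k + (J + 2) then d * (k + 1) else 0 := by
  induction s using Nat.strong_induction_on with
  | _ s ih =>
    intro k hk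
    rcases s with _ | s
    · rw [u_ExCh, u_ExCh, if_neg (by omega), sub_zero]
    have e1 : (X * u_ExCh (Function.update c (J + 2) (c (J + 2) + d)) s).coeff k =
        (X * u_ExCh c s).coeff k - if s + 1 = k + (J + 2) then d * k else 0 := by
      rcases k with _ | k
      · simp
      · rw [coeff_X_mul, coeff_X_mul, ih s (by omega) k (by omega)]
        congr 1
        split_ifs with h1 h2 h2
        · push_cast
          rfl
        · omega
        · omega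
        · rfl
    have e2 : ∀ i ∈ Finset.range s, (C (Function.update c (J + 2) (c (J + 2) + d) (i + 2)) *
        u_ExCh (Function.update c (J + 2) (c (J + 2) + d)) (s - 1 - i)).coeff k =
        (C (c (i + 2)) * u_ExCh c (s - 1 - i)).coeff k +
          if i = J then (if s + 1 = k + (J + 2) then d else 0) else 0 := fun i hi => by
      have := Finset.mem_range.1 hi
      rw [coeff_C_mul, coeff_C_mul, ih (s - 1 - i) (by omega) k (by omega), if_neg (by omega),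
        sub_zero]
      split_ifs with h1 h2
      · rw [h1, Function.update_self, show s - 1 - J = k by omega, (top_ExCh c k).2.1]
        ring
      · rw [(top_ExCh c _).1 k (by omega)]
        ring
      · rw [Function.update_of_ne (by omega), add_zero]
    rw [u_ExCh, u_ExCh, coeff_sub, coeff_sub, finsetSum_coeff, finsetSum_coeff, e1,
      Finset.sum_congr rfl e2, Finset.sum_add_distrib, Finset.sum_ite_eq']
    split_ifs with h1 h2 h2
    · ring
    · exact absurd (Finset.mem_range.2 (by omega)) h2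
    · ring
    · ring

lemma ex_ExCh (n : ℕ) (P : ℂ[X]) (hP : P.Monic) (hd : P.natDegree = n)
    (h0 : P.coeff (n - 1) = 0) (J : ℕ) :
    ∃ c : ℕ → ℂ, ∀ k, n ≤ k + (J + 1) → (u_ExCh c n).coeff k = P.coeff k := by
  induction J with
  | zero =>
    refine ⟨fun _ => 0, fun k hk => ?_⟩
    obtain ⟨h1, h2, h3⟩ := top_ExCh (fun _ => 0) n
    rcases lt_trichotomy n k with h | h | h
    · rw [h1 k h, coeff_eq_zero_of_natDegree_lt (by omega)]
    · rw [← h, h2, ← hd, hP.coeff_natDegree]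
    · rw [h3 k (by omega), show k = n - 1 by omega, h0]
  | succ J ih =>
    obtain ⟨c, hc⟩ := ih
    refine ⟨Function.update c (J + 2) (c (J + 2) + ((u_ExCh c n).coeff (n - (J + 2)) -
      P.coeff (n - (J + 2))) / ((n - (J + 2) : ℕ) + 1)), fun k hk => ?_⟩
    rw [upd_ExCh c J _ n k hk]
    split_ifs with h
    · rw [show n - (J + 2) = k by omega, div_mul_cancel₀ _ (Nat.cast_add_one_ne_zero k)]
      ring
    · rw [sub_zero, hc k (by omega)]

lemma row_ExCh (n : ℕ) (c : ℕ → ℂ) (a : Fin n) :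
    u_ExCh c n ∣ ((hitchin n c).charmatrix *ᵥ fun b => u_ExCh c (n - 1 - b.val)) a := by
  have ha := a.isLt
  have e : ((hitchin n c).charmatrix *ᵥ fun b => u_ExCh c (n - 1 - b.val)) a =
      X * u_ExCh c (n - 1 - a.val) - ∑ b ∈ Finset.range n, C (if a.val = b + 1 then 1 else
        if a.val < b then c (b - a.val + 1) else 0) * u_ExCh c (n - 1 - b) := by
    rw [charmatrix, Matrix.sub_mulVec, Pi.sub_apply, Matrix.scalar_apply, Matrix.mulVec_diagonal,
      ← Fin.sum_univ_eq_sum_range (fun b => C (if a.val = b + 1 then 1 else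
        if a.val < b then c (b - a.val + 1) else 0) * u_ExCh c (n - 1 - b)) n]
    rfl
  obtain ⟨s, hs⟩ : ∃ s, n = a.val + 1 + s := ⟨n - (a.val + 1), by omega⟩
  have e2 : ∑ i ∈ Finset.range s, C (if a.val = a.val + 1 + i + 1 then 1 else
      if a.val < a.val + 1 + i then c (a.val + 1 + i - a.val + 1) else 0) *
        u_ExCh c (n - 1 - (a.val + 1 + i)) =
      ∑ i ∈ Finset.range s, C (c (i + 2)) * u_ExCh c (s - 1 - i) :=
    Finset.sum_congr rfl fun i _ => by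
      rw [if_neg (by omega), if_pos (by omega), show a.val + 1 + i - a.val + 1 = i + 2 by omega,
        show n - 1 - (a.val + 1 + i) = s - 1 - i by omega]
  have e3 : X * u_ExCh c s - ∑ i ∈ Finset.range s, C (c (i + 2)) * u_ExCh c (s - 1 - i) =
      u_ExCh c (s + 1) := by rw [u_ExCh]
  rw [e, show Finset.range n = Finset.range (a.val + 1 + s) by rw [← hs], Finset.sum_range_add, e2,
    show n - 1 - a.val = s by omega, sub_add_eq_sub_sub_swap, e3]
  rcases Nat.eq_zero_or_pos a.val with h | h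
  · rw [h, Finset.sum_range_one, if_neg (by omega), if_neg (by omega), C_0, zero_mul, sub_zero,
      show s + 1 = n by omega]
  · rw [Finset.sum_eq_single (a.val - 1), if_pos (by omega), C_1, one_mul,
      show n - 1 - (a.val - 1) = s + 1 by omega, sub_self]
    · exact dvd_zero _
    · intro b hb hb'
      have := Finset.mem_range.1 hb
      rw [if_neg (by omega), if_neg (by omega), C_0, zero_mul]
    · exact fun hb => absurd (Finset.mem_range.2 (by omega)) hb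

theorem exCh : ExChStmt := by
  intro n P hn hP hd h0
  obtain ⟨c, hc⟩ := ex_ExCh n P hP hd h0 n
  have e : u_ExCh c n = P := Polynomial.ext fun k => hc k (by omega)
  refine ⟨c, eq_of_monic_of_dvd_of_natDegree_le hP (charpoly_monic _) ?_ ?_⟩
  · have := congrFun (Matrix.mulVec_mulVec (fun b : Fin n => u_ExCh c (n - 1 - b.val))
      (hitchin n c).charmatrix.adjugate (hitchin n c).charmatrix) ⟨n - 1, by omega⟩
    rw [Matrix.adjugate_mul, Matrix.smul_mulVec, Matrix.one_mulVec, Pi.smul_apply, Nat.sub_self,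
      u_ExCh, smul_eq_mul, mul_one] at this
    rw [← e, charpoly, ← this, Matrix.mulVec, dotProduct]
    exact Finset.dvd_sum fun b _ => (row_ExCh n c b).mul_left _
  · rw [charpoly_natDegree_eq_dim, Fintype.card_fin, hd]

end Pool.Agent.MP_4f0bc7_gt

end
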